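import Mathlib
import Pool.Agent.N183.U5.Csep2

/-!
# Arithmetic of the multiplicities of cyclic coverings: two coverings
-/

set_option linter.unusedSectionVars false

namespace Pool.Agent.N183.U6

open Pool.Agent.N183.U5

/-- Places of a covering of large degree are mixed. -/
theorem Mq_of_lt {q n : ℕ} [NeZero q] (hq : IsPrimePow q) (hlt : q < n) (u : (ZMod q)ˣ) :
    Mq q n (u : ZMod q) := by
  have hq1 : 1 < q := hq.one_lt
  have : Fact (1 < q) := ⟨hq1⟩
  refine ⟨?_, ?_⟩
  · have h1 : 0 < (u : ZMod q).val := by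
      rw [Nat.pos_iff_ne_zero]
      intro h2
      exact u.ne_zero ((ZMod.val_eq_zero _).1 h2)
    have h2 : 1 ≤ n * (u : ZMod q).val / q := by
      rw [Nat.one_le_div_iff (by omega)]
      calc q ≤ n * 1 := by omega
        _ ≤ n * (u : ZMod q).val := Nat.mul_le_mul_left n h1
    unfold Hq
    omega
  · have h1 : 0 < (-(u : ZMod q)).val := by
      rw [Nat.pos_iff_ne_zero]
      intro h2
      exact u.ne_zero (neg_eq_zero.1 ((ZMod.val_eq_zero _).1 h2))
    have h2 : 1 ≤ n * (-(u : ZMod q)).val / q := by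
      rw [Nat.one_le_div_iff (by omega)]
      calc q ≤ n * 1 := by omega
        _ ≤ n * (-(u : ZMod q)).val := Nat.mul_le_mul_left n h1
    unfold Hq
    omega

/-- The mixed places are the places in the middle. -/
theorem not_Mq_iff {q n : ℕ} [NeZero q] (hq : 1 < q) (hnq : n.Coprime q) (u : (ZMod q)ˣ) :
    ¬Mq q n (u : ZMod q) ↔ Hq q n (u : ZMod q) = 0 ∨ Hq q n (u : ZMod q) = n - 1 := by
  have h1 := Hq_neg hq hnq u
  unfold Mq
  constructor
  · intro h2
    by_cases h3 : Hq q n (u : ZMod q) = 0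
    · exact Or.inl h3
    · right
      have h4 : Hq q n (-(u : ZMod q)) = 0 := by
        by_contra h4
        exact h2 ⟨h3, h4⟩
      omega
  · rintro (h2 | h2) ⟨h3, h4⟩
    · exact h3 h2
    · apply h4
      omega

/-- Two coverings of different orders. -/
theorem lem_div {q q' n n' : ℕ} [NeZero q] [NeZero q'] (hq : 1 < q) (hqq : q ∣ q') (hne : q ≠ q')
    (hn : 4 ≤ n) (hnq : n.Coprime q) (hn' : 4 ≤ n') (hnq' : n'.Coprime q') (hcop : ∀ x : ℕ,
      x.Coprime q → x.Coprime q') (c : (ZMod q)ˣ)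
    (h : ∀ u : (ZMod q')ˣ, Mq q n (c * ZMod.castHom hqq (ZMod q) u) ∨ Mq q' n' u →
      Hq q n (c * ZMod.castHom hqq (ZMod q) u) * (n' - 1) = Hq q' n' u * (n - 1))
    (u : (ZMod q')ˣ) : ¬Mq q n (c * ZMod.castHom hqq (ZMod q) u) ∧ ¬Mq q' n' u := by
  have hq'0 : 0 < q' := Nat.pos_of_ne_zero (NeZero.ne q')
  have hlt : q < q' := lt_of_le_of_ne (Nat.le_of_dvd hq'0 hqq) hne
  have hq1 : 1 < q' := by omega
  have : Fact (1 < q) := ⟨hq⟩
  have : Fact (1 < q') := ⟨hq1⟩
  have h2q : 2 * q ≤ q' := by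
    obtain ⟨k, hk⟩ := hqq
    have h1 : 2 ≤ k := by
      by_contra h1
      have h2 : k = 0 ∨ k = 1 := by omega
      rcases h2 with h2 | h2
      · rw [h2, mul_zero] at hk
        omega
      · rw [h2, mul_one] at hk
        exact hne hk.symm
    rw [hk, mul_comm q k]
    exact Nat.mul_le_mul_right q h1
  have key : ∀ u : (ZMod q')ˣ, ¬Mq q n (c * ZMod.castHom hqq (ZMod q) u) := by
    intro u hM
    -- the residue
    obtain ⟨r, hr⟩ : ∃ r, r = (u : ZMod q').val % q := ⟨_, rfl⟩
    have hrq : r < q := by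
      rw [hr]
      exact Nat.mod_lt _ (by omega)
    have hucop : (u : ZMod q').val.Coprime q' := ZMod.val_coe_unit_coprime u
    have hcr : r.Coprime q := by
      have h1 : (u : ZMod q').val.Coprime q := Nat.Coprime.coprime_dvd_right hqq hucop
      rw [hr]
      unfold Nat.Coprime at h1 ⊢
      rw [(Nat.mod_modEq _ q).gcd_eq, h1]
    have hr0 : 0 < r := by
      rw [Nat.pos_iff_ne_zero]
      intro h1
      rw [h1, Nat.coprime_zero_left] at hcr
      omega
    have hsub : (q - r).Coprime q := (Nat.coprime_self_sub_left hrq.le).2 hcr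
    obtain ⟨u1, hu1⟩ : ∃ u1 : (ZMod q')ˣ, (u1 : ZMod q') = ((r : ℕ) : ZMod q') :=
      ⟨ZMod.unitOfCoprime r (hcop r hcr), ZMod.coe_unitOfCoprime _ _⟩
    obtain ⟨u2, hu2⟩ : ∃ u2 : (ZMod q')ˣ, (u2 : ZMod q') = -((q - r : ℕ) : ZMod q') :=
      ⟨-ZMod.unitOfCoprime (q - r) (hcop _ hsub), by
        rw [Units.val_neg, ZMod.coe_unitOfCoprime]⟩
    have hcu : ZMod.castHom hqq (ZMod q) (u : ZMod q') = ((r : ℕ) : ZMod q) := by
      have h1 : (u : ZMod q') = (((u : ZMod q').val : ℕ) : ZMod q') :=
        (ZMod.natCast_zmod_val _).symm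
      rw [h1, map_natCast, hr, ZMod.natCast_mod]
    have hcu1 : ZMod.castHom hqq (ZMod q) (u1 : ZMod q') = ZMod.castHom hqq (ZMod q) (u : ZMod q') := by
      rw [hcu, hu1, map_natCast]
    have hcu2 : ZMod.castHom hqq (ZMod q) (u2 : ZMod q') = ZMod.castHom hqq (ZMod q) (u : ZMod q') := by
      rw [hcu, hu2, map_neg, map_natCast, Nat.cast_sub hrq.le, ZMod.natCast_self, zero_sub, neg_neg]
    have e1 := h u1 (Or.inl (by rwa [hcu1]))
    have e2 := h u2 (Or.inl (by rwa [hcu2]))
    rw [hcu1] at e1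
    rw [hcu2] at e2
    rw [e1] at e2
    have e3 : Hq q' n' (u1 : ZMod q') = Hq q' n' (u2 : ZMod q') :=
      Nat.eq_of_mul_eq_mul_right (by omega) e2
    have e4 := Hq_neg hq1 hnq' u2
    rw [← e3] at e4
    rw [hu2, neg_neg, Hq_nat (by omega), hu1, Hq_nat (by omega)] at e4
    have e5 : n' * r / q' + n' * (q - r) / q' ≤ n' / 2 := by
      have e6 : (n' * r / q' + n' * (q - r) / q') * q' ≤ n' * q := by
        rw [add_mul]
        have e7 := Nat.div_mul_le_self (n' * r) q'
        have e8 := Nat.div_mul_le_self (n' * (q - r)) q'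
        have e9 : n' * r + n' * (q - r) = n' * q := by
          rw [← mul_add]
          congr 1
          omega
        omega
      rw [Nat.le_div_iff_mul_le (by norm_num)]
      have e7 : (n' * r / q' + n' * (q - r) / q') * 2 * q ≤ n' * q := by
        calc (n' * r / q' + n' * (q - r) / q') * 2 * q =
            (n' * r / q' + n' * (q - r) / q') * (2 * q) := by ring
          _ ≤ (n' * r / q' + n' * (q - r) / q') * q' := Nat.mul_le_mul_left _ h2q
          _ ≤ n' * q := e6
      exact Nat.le_of_mul_le_mul_right e7 (by omega)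
    omega
  refine ⟨key u, fun hM => key u ?_⟩
  -- a place which is mixed for the second covering
  have e1 := h u (Or.inr hM)
  have e2 := Hq_neg hq1 hnq' u
  obtain ⟨hM1, hM2⟩ := hM
  let w : (ZMod q)ˣ := c * Units.map (ZMod.castHom hqq (ZMod q)).toMonoidHom u
  have hw : (w : ZMod q) = c * ZMod.castHom hqq (ZMod q) u := rfl
  rw [← hw] at e1 ⊢
  by_contra hcon
  rcases (not_Mq_iff hq hnq w).1 hcon with h3 | h3
  · rw [h3, zero_mul] at e1
    rcases mul_eq_zero.1 e1.symm with h4 | h4
    · exact hM1 h4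
    · omega
  · rw [h3, mul_comm] at e1
    have h4 := Nat.eq_of_mul_eq_mul_right (by omega) e1
    apply hM2
    omega

/-- An element which preserves the definite places is plus or minus one. -/
theorem unit_pm {q n : ℕ} [NeZero q] (hq : IsPrimePow q) (hn : 4 ≤ n) (hnq : n.Coprime q)
    (hlt : n < q) (c : (ZMod q)ˣ)
    (h : ∀ u : (ZMod q)ˣ, ¬Mq q n (u : ZMod q) → ¬Mq q n (c * u : ZMod q)) :
    c = 1 ∨ c = -1 := by
  have hq1 : 1 < q := hq.one_lt
  have : Fact (1 < q) := ⟨hq1⟩
  have hH1 : Hq q n ((1 : (ZMod q)ˣ) : ZMod q) = 0 := by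
    have h1 : ((1 : (ZMod q)ˣ) : ZMod q) = ((1 : ℕ) : ZMod q) := by simp
    rw [h1, Hq_nat hq1, mul_one]
    exact Nat.div_eq_of_lt hlt
  have hcM : ¬Mq q n (c : ZMod q) := by
    have h1 := h 1 (fun h2 => h2.1 hH1)
    rwa [Units.val_one, mul_one] at h1
  have hdef : ∀ a : (ZMod q)ˣ, Hq q n (a : ZMod q) = 0 → ∃ c0 : ℕ, 0 < c0 ∧ n * c0 < q ∧
      c0.Coprime q ∧ (a : ZMod q) = c0 := by
    intro a ha
    refine ⟨(a : ZMod q).val, ?_, ?_, ZMod.val_coe_unit_coprime a, by rw [ZMod.natCast_zmod_val]⟩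
    · rw [Nat.pos_iff_ne_zero]
      intro h2
      exact a.ne_zero ((ZMod.val_eq_zero _).1 h2)
    · unfold Hq at ha
      exact (Nat.div_eq_zero_iff_lt (by omega)).1 ha
  have hc : ∃ c0 : ℕ, 0 < c0 ∧ n * c0 < q ∧ c0.Coprime q ∧
      ((c : ZMod q) = c0 ∨ (c : ZMod q) = -(c0 : ZMod q)) := by
    by_cases h1 : Hq q n (c : ZMod q) = 0
    · obtain ⟨c0, h2, h3, h4, h5⟩ := hdef c h1
      exact ⟨c0, h2, h3, h4, Or.inl h5⟩
    · have h2 : Hq q n ((-c : (ZMod q)ˣ) : ZMod q) = 0 := by
        by_contra h3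
        exact hcM ⟨h1, by rwa [Units.val_neg] at h3⟩
      obtain ⟨c0, h2, h3, h4, h5⟩ := hdef (-c) h2
      refine ⟨c0, h2, h3, h4, Or.inr ?_⟩
      rw [Units.val_neg] at h5
      rw [← h5, neg_neg]
  obtain ⟨c0, hc0, hnc, hcq, hcc⟩ := hc
  rcases Nat.lt_or_ge 1 c0 with hc1 | hc1
  · exfalso
    obtain ⟨m, m', e1, e2, e3, e4, e5, e6, e7⟩ := exists_min hq hc0 hnc (by omega) hnq
    have hmq : n * m < q := by
      rcases Nat.lt_or_ge c0 m with h1 | h1
      · rcases e6 with e6 | ⟨e6, e8⟩
        · calc n * m ≤ n * (c0 * m') := Nat.mul_le_mul_left n (by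
                rw [e6]
                calc m' + 1 ≤ 2 * m' := by omega
                  _ ≤ c0 * m' := Nat.mul_le_mul_right _ hc1)
            _ = n * c0 * m' := by ring
            _ < q := e4
        · have h2 : 2 ≤ m' := by
            by_contra h3
            have h4 : m' = 1 := by omega
            rw [h4] at e6 e8
            have h5 : c0 = 2 := by omega
            rw [h5] at hcq
            exact e8 hcq
          calc n * m ≤ n * (c0 * m') := Nat.mul_le_mul_left n (by
                rw [e6]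
                calc m' + 2 ≤ 2 * m' := by omega
                  _ ≤ c0 * m' := Nat.mul_le_mul_right _ hc1)
            _ = n * c0 * m' := by ring
            _ < q := e4
      · calc n * m ≤ n * c0 := Nat.mul_le_mul_left n h1
          _ < q := hnc
    have hup : n * (c0 * m) < (n - 1) * q := by
      have h1 : n * c0 * m ≤ n * c0 * (m' + 2) := Nat.mul_le_mul_left _ (by omega)
      have h2 : n * c0 * (m' + 2) = n * c0 * m' + 2 * (n * c0) := by ring
      have h3 : 3 * q ≤ (n - 1) * q := Nat.mul_le_mul_right q (by omega)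
      calc n * (c0 * m) = n * c0 * m := by ring
        _ < 3 * q := by omega
        _ ≤ (n - 1) * q := h3
    have hlt' : c0 * m < q := by
      by_contra h1
      have h2 : n * q ≤ n * (c0 * m) := Nat.mul_le_mul_left n (by omega)
      have h3 : (n - 1) * q ≤ n * q := Nat.mul_le_mul_right q (by omega)
      omega
    have hcm : (c0 * m).Coprime q := Nat.Coprime.mul_left hcq e1
    have hmq' : m < q := by
      calc m ≤ n * m := Nat.le_mul_of_pos_left m (by omega)
        _ < q := hmq
    have hHm : Hq q n (m : ZMod q) = 0 := by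
      rw [Hq_nat hmq']
      exact Nat.div_eq_of_lt hmq
    have h3 := Hq_nat (n := n) hlt'
    have h4 := Hq_neg hq1 hnq (ZMod.unitOfCoprime (c0 * m) hcm)
    rw [ZMod.coe_unitOfCoprime] at h4
    have h5 : 1 ≤ n * (c0 * m) / q := by
      rw [Nat.one_le_div_iff (by omega)]
      calc q ≤ n * c0 * m := e3.le
        _ = n * (c0 * m) := by ring
    have h6 : n * (c0 * m) / q < n - 1 := Nat.div_lt_of_lt_mul (by rw [mul_comm q]; exact hup)
    have key : Mq q n ((c : ZMod q) * m) := by
      rcases hcc with h1 | h1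
      · rw [h1, ← Nat.cast_mul]
        exact ⟨by omega, by omega⟩
      · rw [h1, neg_mul, ← Nat.cast_mul]
        exact ⟨by omega, by rw [neg_neg]; omega⟩
    refine h (ZMod.unitOfCoprime m e1) (fun h7 => ?_) (by rwa [ZMod.coe_unitOfCoprime])
    rw [ZMod.coe_unitOfCoprime] at h7
    exact h7.1 hHm
  · have hc01 : c0 = 1 := by omega
    rw [hc01, Nat.cast_one] at hcc
    rcases hcc with h1 | h1
    · exact Or.inl (Units.ext h1)
    · exact Or.inr (Units.ext (by rw [h1, Units.val_neg, Units.val_one]))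

/-- Two coverings of the same order. -/
theorem lem_same {q n n' : ℕ} [NeZero q] (hq : IsPrimePow q)
    (hn : 4 ≤ n) (hnq : n.Coprime q) (hn' : 4 ≤ n') (hnq' : n'.Coprime q) (c : (ZMod q)ˣ)
    (hM : ∃ u : (ZMod q)ˣ, Mq q n (c * u : ZMod q) ∨ Mq q n' u)
    (h : ∀ u : (ZMod q)ˣ, Mq q n (c * u : ZMod q) ∨ Mq q n' u →
      Hq q n (c * u : ZMod q) * (n' - 1) = Hq q n' u * (n - 1)) (u : (ZMod q)ˣ) :
    Hq q n (c * u : ZMod q) * (n' - 1) = Hq q n' u * (n - 1) := by
  classical
  have hq1 : 1 < q := hq.one_lt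
  have : Fact (1 < q) := ⟨hq1⟩
  rcases eq_or_ne n n' with hnn | hnn
  · subst hnn
    have h0 : ∀ u : (ZMod q)ˣ, Mq q n u ∨ Mq q n (c * u : ZMod q) →
        Hq q n u = Hq q n (c * u : ZMod q) := by
      intro u hu
      have h1 := h u hu.symm
      exact (Nat.eq_of_mul_eq_mul_right (by omega) h1).symm
    have hM' : ∃ u : (ZMod q)ˣ, Mq q n u := by
      obtain ⟨u, hu | hu⟩ := hM
      · exact ⟨c * u, hu⟩
      · exact ⟨u, hu⟩
    rw [Hq_ratio hq hn hnq c hM' h0 u]
  rcases Nat.lt_or_ge q n with hlt | hge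
  · exact h u (Or.inl (Mq_of_lt hq hlt (c * u)))
  rcases Nat.lt_or_ge q n' with hlt' | hge'
  · exact h u (Or.inr (Mq_of_lt hq hlt' u))
  have hlt : n < q := by
    rcases eq_or_ne n q with h1 | h1
    · rw [h1, Nat.coprime_self] at hnq
      omega
    · omega
  have hlt' : n' < q := by
    rcases eq_or_ne n' q with h1 | h1
    · rw [h1, Nat.coprime_self] at hnq'
      omega
    · omega
  -- the sets of definite places
  have hiff : ∀ u : (ZMod q)ˣ, Mq q n (c * u : ZMod q) ↔ Mq q n' (u : ZMod q) := by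
    intro u
    have e0 : (c * u : ZMod q) = ((c * u : (ZMod q)ˣ) : ZMod q) := (Units.val_mul _ _).symm
    constructor
    · intro h1
      have h2 := h u (Or.inl h1)
      rw [e0] at h1 h2
      by_contra h3
      have h5 := Hq_neg hq1 hnq (c * u)
      rcases (not_Mq_iff hq1 hnq' u).1 h3 with h4 | h4
      · rw [h4, zero_mul] at h2
        rcases mul_eq_zero.1 h2 with h6 | h6
        · exact h1.1 h6
        · omega
      · rw [h4, mul_comm (n' - 1)] at h2
        have h6 := Nat.eq_of_mul_eq_mul_right (by omega) h2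
        apply h1.2
        omega
    · intro h1
      have h2 := h u (Or.inr h1)
      rw [e0] at h2 ⊢
      by_contra h3
      have h5 := Hq_neg hq1 hnq' u
      rcases (not_Mq_iff hq1 hnq (c * u)).1 h3 with h4 | h4
      · rw [h4, zero_mul] at h2
        rcases mul_eq_zero.1 h2.symm with h6 | h6
        · exact h1.1 h6
        · omega
      · rw [h4, mul_comm] at h2
        have h6 := Nat.eq_of_mul_eq_mul_right (by omega) h2
        apply h1.2
        omega
  have hdesc : ∀ (k : ℕ), k < q → k.Coprime q → ∀ v : (ZMod q)ˣ, ¬Mq q k (v : ZMod q) ↔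
      k * (v : ZMod q).val < q ∨ k * (-(v : ZMod q)).val < q := by
    intro k hk hkq v
    unfold Mq Hq
    rw [not_and_or, not_not, not_not, Nat.div_eq_zero_iff_lt (by omega),
      Nat.div_eq_zero_iff_lt (by omega)]
  let D : ℕ → Finset (ZMod q)ˣ := fun k => Finset.univ.filter fun v => ¬Mq q k (v : ZMod q)
  have hD : ∀ k v, v ∈ D k ↔ ¬Mq q k (v : ZMod q) := fun k v => by
    simp only [D, Finset.mem_filter, Finset.mem_univ, true_and]
  have hcard : (D n').card = (D n).card := by
    rw [← Finset.card_map (Equiv.mulLeft c).toEmbedding]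
    congr 1
    ext v
    rw [Finset.mem_map, hD]
    constructor
    · rintro ⟨u, hu, rfl⟩
      rw [hD, ← hiff] at hu
      exact hu
    · intro hv
      refine ⟨c⁻¹ * v, ?_, ?_⟩
      · rw [hD, ← hiff]
        have h1 : (c : ZMod q) * ((c⁻¹ * v : (ZMod q)ˣ) : ZMod q) = v := by
          rw [← Units.val_mul, mul_inv_cancel_left]
        rwa [h1]
      · change c * (c⁻¹ * v) = v
        rw [mul_inv_cancel_left]
  have hDD : D n = D n' := by
    rcases Nat.le_total n n' with h1 | h1
    · symm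
      apply Finset.eq_of_subset_of_card_le _ hcard.ge
      intro v hv
      rw [hD, hdesc _ hlt' hnq'] at hv
      rw [hD, hdesc _ hlt hnq]
      rcases hv with hv | hv
      · exact Or.inl ((Nat.mul_le_mul_right _ h1).trans_lt hv)
      · exact Or.inr ((Nat.mul_le_mul_right _ h1).trans_lt hv)
    · apply Finset.eq_of_subset_of_card_le _ hcard.le
      intro v hv
      rw [hD, hdesc _ hlt hnq] at hv
      rw [hD, hdesc _ hlt' hnq']
      rcases hv with hv | hv
      · exact Or.inl ((Nat.mul_le_mul_right _ h1).trans_lt hv)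
      · exact Or.inr ((Nat.mul_le_mul_right _ h1).trans_lt hv)
  have hMM : ∀ v : (ZMod q)ˣ, Mq q n (v : ZMod q) ↔ Mq q n' (v : ZMod q) := by
    intro v
    have h1 := hD n v
    rw [hDD, hD] at h1
    exact (not_iff_not.1 h1).symm
  have hpm := unit_pm hq hn hnq hlt c (fun u hu hcu => hu ((hMM u).2 ((hiff u).1 hcu)))
  have hval : ∀ v : (ZMod q)ˣ, (v : ZMod q).val + (-(v : ZMod q)).val = q := by
    intro v
    have : NeZero (v : ZMod q) := ⟨v.ne_zero⟩
    have h1 : (-(v : ZMod q)).val = q - (v : ZMod q).val := ZMod.val_neg_of_ne_zero _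
    have h2 := ZMod.val_lt (v : ZMod q)
    omega
  rcases hpm with rfl | rfl
  · rw [Units.val_one, one_mul]
    by_cases h1 : Mq q n (u : ZMod q)
    · have h2 := h u (Or.inl (by rwa [Units.val_one, one_mul]))
      rwa [Units.val_one, one_mul] at h2
    · have h2 : ¬Mq q n' (u : ZMod q) := fun h3 => h1 ((hMM u).2 h3)
      have g1 := (hdesc n hlt hnq u).1 h1
      have g2 := (hdesc n' hlt' hnq' u).1 h2
      have g3 := hval u
      have g4 := Hq_neg hq1 hnq u
      have g5 := Hq_neg hq1 hnq' u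
      have k1 : ∀ x, 4 * x ≤ n * x := fun x => Nat.mul_le_mul_right x hn
      have k2 : ∀ x, 4 * x ≤ n' * x := fun x => Nat.mul_le_mul_right x hn'
      have k3 := k1 (u : ZMod q).val
      have k4 := k1 (-(u : ZMod q)).val
      have k5 := k2 (u : ZMod q).val
      have k6 := k2 (-(u : ZMod q)).val
      rcases g1 with g1 | g1
      · rcases g2 with g2 | g2
        · have e1 : Hq q n (u : ZMod q) = 0 := Nat.div_eq_of_lt g1
          have e2 : Hq q n' (u : ZMod q) = 0 := Nat.div_eq_of_lt g2
          rw [e1, e2, zero_mul, zero_mul]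
        · omega
      · rcases g2 with g2 | g2
        · omega
        · have e1 : Hq q n (-(u : ZMod q)) = 0 := Nat.div_eq_of_lt g1
          have e2 : Hq q n' (-(u : ZMod q)) = 0 := Nat.div_eq_of_lt g2
          have e3 : Hq q n (u : ZMod q) = n - 1 := by omega
          have e4 : Hq q n' (u : ZMod q) = n' - 1 := by omega
          rw [e3, e4, mul_comm]
  · exfalso
    obtain ⟨m, m', e1, e2, e3, e4, e5, e6, e7⟩ :=
      exists_min hq (c := 1) one_pos (by omega) (by omega) hnq
    rw [mul_one] at e3 e4 e7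
    have hm1 : n * m < 3 * q := by
      have h2 : n * m ≤ n * (m' + 2) := Nat.mul_le_mul_left _ (by omega)
      have h3 : n * (m' + 2) = n * m' + 2 * n := by ring
      omega
    have hup : n * m < (n - 1) * q := by
      calc n * m < 3 * q := hm1
        _ ≤ (n - 1) * q := Nat.mul_le_mul_right q (by omega)
    have hltm : m < q := by
      by_contra h2
      have h3 : n * q ≤ n * m := Nat.mul_le_mul_left n (by omega)
      have h4 : (n - 1) * q ≤ n * q := Nat.mul_le_mul_right q (by omega)
      omega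
    have hm'q : m' < q := by omega
    have hqpos : 0 < q := by omega
    -- the units
    have hv : ((ZMod.unitOfCoprime m e1 : (ZMod q)ˣ) : ZMod q) = (m : ZMod q) :=
      ZMod.coe_unitOfCoprime _ _
    have hv' : ((ZMod.unitOfCoprime m' e2 : (ZMod q)ˣ) : ZMod q) = (m' : ZMod q) :=
      ZMod.coe_unitOfCoprime _ _
    have hmv : ((m : ℕ) : ZMod q).val = m := by rw [ZMod.val_natCast, Nat.mod_eq_of_lt hltm]
    have hmv' : ((m' : ℕ) : ZMod q).val = m' := by rw [ZMod.val_natCast, Nat.mod_eq_of_lt hm'q]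
    have s1 := hval (ZMod.unitOfCoprime m e1)
    have s2 := hval (ZMod.unitOfCoprime m' e2)
    rw [hv, hmv] at s1
    rw [hv', hmv'] at s2
    have hH := Hq_neg hq1 hnq (ZMod.unitOfCoprime m e1)
    have hH' := Hq_neg hq1 hnq' (ZMod.unitOfCoprime m e1)
    rw [hv] at hH hH'
    have f1 : Mq q n ((ZMod.unitOfCoprime m e1 : (ZMod q)ˣ) : ZMod q) := by
      rw [hv]
      have h3 := Hq_nat (n := n) hltm
      have h5 : 1 ≤ n * m / q := by
        rw [Nat.one_le_div_iff (by omega)]
        exact e3.le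
      have h6 : n * m / q < n - 1 := Nat.div_lt_of_lt_mul (by rw [mul_comm q]; exact hup)
      exact ⟨by omega, by omega⟩
    have f2 := (hMM _).1 f1
    have f3 : ¬Mq q n ((ZMod.unitOfCoprime m' e2 : (ZMod q)ˣ) : ZMod q) := by
      rw [hdesc n hlt hnq, hv', hmv']
      exact Or.inl e4
    have f4 : ¬Mq q n' ((ZMod.unitOfCoprime m' e2 : (ZMod q)ˣ) : ZMod q) :=
      fun h3 => f3 ((hMM _).2 h3)
    have f5 : n' * m' < q := by
      rw [hdesc n' hlt' hnq', hv', hmv'] at f4
      rcases f4 with f4 | f4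
      · exact f4
      · exfalso
        have k1 : 4 * (-(m' : ZMod q)).val ≤ n' * (-(m' : ZMod q)).val :=
          Nat.mul_le_mul_right _ hn'
        have k2 : 4 * m' ≤ n * m' := Nat.mul_le_mul_right _ hn
        omega
    have f6 : q ≤ n' * m := by
      by_contra h3
      have h4 : ¬Mq q n' ((ZMod.unitOfCoprime m e1 : (ZMod q)ˣ) : ZMod q) := by
        rw [hdesc n' hlt' hnq', hv, hmv]
        left
        omega
      exact h4 f2
    have hm1' : n' * m < 3 * q := by
      have h2 : n' * m ≤ n' * (m' + 2) := Nat.mul_le_mul_left _ (by omega)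
      have h3 : n' * (m' + 2) = n' * m' + 2 * n' := by ring
      omega
    have g1 : Hq q n (m : ZMod q) = n * m / q := Hq_nat hltm
    have g2 : Hq q n' (m : ZMod q) = n' * m / q := Hq_nat hltm
    have g3 : 1 ≤ n * m / q := by
      rw [Nat.one_le_div_iff (by omega)]
      exact e3.le
    have g4 : n * m / q < 3 := Nat.div_lt_of_lt_mul (by rw [mul_comm q]; exact hm1)
    have g5 : 1 ≤ n' * m / q := by
      rw [Nat.one_le_div_iff (by omega)]
      exact f6
    have g6 : n' * m / q < 3 := Nat.div_lt_of_lt_mul (by rw [mul_comm q]; exact hm1')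
    have g7 := h (ZMod.unitOfCoprime m e1) (Or.inr f2)
    rw [Units.val_neg, Units.val_one, neg_one_mul, hv] at g7
    rw [g1] at hH
    have g8 : Hq q n (-(m : ZMod q)) = n - 1 - n * m / q := by omega
    rw [g8, g2] at g7
    obtain ⟨a, ha⟩ : ∃ a, n = a + 4 := ⟨n - 4, by omega⟩
    obtain ⟨a', ha'⟩ : ∃ a', n' = a' + 4 := ⟨n' - 4, by omega⟩
    have g9 : n * m / q = 1 ∨ n * m / q = 2 := by omega
    have g10 : n' * m / q = 1 ∨ n' * m / q = 2 := by omega
    have w1 : n - 1 = a + 3 := by omega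
    have w2 : n' - 1 = a' + 3 := by omega
    rw [w1, w2] at g7
    rcases g9 with g9 | g9 <;> rcases g10 with g10 | g10 <;> rw [g9, g10] at g7
    · have w3 : a + 3 - 1 = a + 2 := by omega
      have w4 : (a + 2) * (a' + 3) = a * a' + 3 * a + 2 * a' + 6 := by ring
      rw [w3, w4] at g7
      omega
    · have w3 : a + 3 - 1 = a + 2 := by omega
      have w4 : (a + 2) * (a' + 3) = a * a' + 3 * a + 2 * a' + 6 := by ring
      rw [w3, w4] at g7
      apply hnn
      omega
    · have w3 : a + 3 - 2 = a + 1 := by omega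
      have w4 : (a + 1) * (a' + 3) = a * a' + 3 * a + a' + 3 := by ring
      rw [w3, w4] at g7
      apply hnn
      omega
    · have w3 : a + 3 - 2 = a + 1 := by omega
      have w4 : (a + 1) * (a' + 3) = a * a' + 3 * a + a' + 3 := by ring
      rw [w3, w4] at g7
      have w5 : a < 4 := by omega
      have w6 : a' < 4 := by omega
      have r1 : 2 * q ≤ n * m := by
        have r2 := Nat.div_mul_le_self (n * m) q
        rw [g9] at r2
        exact r2
      have r2 : 2 * q ≤ n' * m := by
        have r3 := Nat.div_mul_le_self (n' * m) q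
        rw [g10] at r3
        exact r3
      have w7 : (a = 0 ∧ a' = 3) ∨ (a = 1 ∧ a' = 1) ∨ (a = 3 ∧ a' = 0) := by
        interval_cases a <;> interval_cases a' <;> omega
      rcases w7 with ⟨w8, w9⟩ | ⟨w8, w9⟩ | ⟨w8, w9⟩
      · have y1 : n = 4 := by omega
        have y2 : n' = 7 := by omega
        rw [y1] at r1
        rw [y2] at f5
        omega
      · apply hnn
        omega
      · have y1 : n = 7 := by omega
        have y2 : n' = 4 := by omega
        rw [y2] at r2
        rw [y1] at e4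
        omega

end Pool.Agent.N183.U6
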