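import Mathlib
import Pool.Agent.N183.U5.Sep
import Pool.Agent.N183.TS.Fac

/-!
# Forms which are invariant up to a factor, and separated centres
-/

set_option linter.unusedSectionVars false

namespace Pool.Agent.N183.U6

open Matrix Module Pool.Agent.W437.HC Pool.Agent.W437.HD Pool.Agent.W548.Odd Pool.Agent.W522.U
open Pool.Agent.H204R3.SP Pool.Agent.H204R3.GP Pool.Agent.Y90 Pool.Agent.Y224.TS
open Pool.Agent.W437.HP (cK cK_mul cK_one)
open Pool.Agent.R915 (CentM commL_of VE mem_VE VE_cj VE_stab aeval_eig exists_S exists_projU)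
open Pool.Agent.N183.TS Pool.Agent.N183.U5
open Polynomial

open scoped ComplexOrder

noncomputable section

section one

variable {G : ℕ} {Z : Matrix (Fin G) (Fin G) ℂ}
  {S : Set (Matrix (Fin G ⊕ Fin G) (Fin G ⊕ Fin G) ℂ)}

/-- A form which is invariant up to a factor gives an isomorphism with the conjugate, up to a
twist. -/
theorem exists_T (h : TD Z S) (hZ : PM Z) {U : Submodule ℂ (Fin G ⊕ Fin G → ℂ)}
    (hU : IrS (LZ Z) U) (T0 : U →ₗ[ℂ] Dual ℂ U) (hT0 : ∀ x, T0 x = 0 → x = 0)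
    (μ : Matrix (Fin G ⊕ Fin G) (Fin G ⊕ Fin G) ℂ → ℂ)
    (hT : ∀ X ∈ Y224.TS.LT S, ∀ x y x' y' : U, (x' : Fin G ⊕ Fin G → ℂ) = X *ᵥ x →
      (y' : Fin G ⊕ Fin G → ℂ) = X *ᵥ y → T0 x' y + T0 x y' = μ X * T0 x y) :
    ∃ T : (Fin G ⊕ Fin G → ℂ) →ₗ[ℂ] (Fin G ⊕ Fin G → ℂ), (∀ u ∈ U, T u ∈ cjS cc U) ∧
      (∀ u ∈ U, T u = 0 → u = 0) ∧
        ∀ X ∈ Y224.TS.LT S, ∀ u ∈ U, T (X *ᵥ u) = X *ᵥ T u + μ X • T u := by
  have hUb : IrS (LZ Z) (cjS cc U) := hU.cj gal_LZ cc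
  let P : (cjS cc U) →ₗ[ℂ] Dual ℂ U :=
    { toFun := fun y => ((om G).flip (y : Fin G ⊕ Fin G → ℂ)).comp U.subtype
      map_add' := fun y y' => by
        rw [Submodule.coe_add, map_add, LinearMap.add_comp]
      map_smul' := fun c y => by
        rw [Submodule.coe_smul, map_smul, LinearMap.smul_comp, RingHom.id_apply] }
  have hP : ∀ (y : cjS cc U) (u : U), P y u = om G u y := fun _ _ => rfl
  have hPinj : Function.Injective P := by
    rw [← LinearMap.ker_eq_bot]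
    have h1 : Stab (LZ Z) ((LinearMap.ker P).map (cjS cc U).subtype) := by
      rintro X hX _ ⟨y, hy, rfl⟩
      refine ⟨⟨X *ᵥ y, hUb.2.1 X hX y y.2⟩, ?_, rfl⟩
      rw [SetLike.mem_coe, LinearMap.mem_ker] at hy ⊢
      refine LinearMap.ext fun u => ?_
      have h2 := hZ.om_sp hX (u : Fin G ⊕ Fin G → ℂ) (y : Fin G ⊕ Fin G → ℂ)
      have h3 : om G (X *ᵥ (u : Fin G ⊕ Fin G → ℂ)) (y : Fin G ⊕ Fin G → ℂ) = 0 :=
        LinearMap.congr_fun hy ⟨_, hU.2.1 X hX u u.2⟩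
      rw [h3, zero_add] at h2
      exact h2
    rcases hUb.2.2 _ (Submodule.map_subtype_le _ _) h1 with h2 | h2
    · rw [eq_bot_iff]
      intro y hy
      have h3 : (y : Fin G ⊕ Fin G → ℂ) ∈ (LinearMap.ker P).map (cjS cc U).subtype :=
        ⟨y, hy, rfl⟩
      rw [h2, Submodule.mem_bot] at h3
      rw [Submodule.mem_bot]
      exact Subtype.ext h3
    · exfalso
      obtain ⟨u0, hu0, hu00⟩ := Submodule.exists_mem_ne_zero_of_ne_bot hU.1
      have h3 : DZ Z *ᵥ cnj u0 ∈ cjS cc U := by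
        refine hUb.2.1 _ DZ_mem _ ?_
        change cnj (cnj u0) ∈ U
        rwa [cnj_cnj]
      have h4 := h3
      rw [← h2] at h4
      obtain ⟨y, hy, hy'⟩ := h4
      rw [SetLike.mem_coe, LinearMap.mem_ker] at hy
      have h5 : om G u0 (y : Fin G ⊕ Fin G → ℂ) = 0 := LinearMap.congr_fun hy ⟨u0, hu0⟩
      have hy'' : (y : Fin G ⊕ Fin G → ℂ) = DZ Z *ᵥ cnj u0 := hy'
      rw [hy''] at h5
      have h6 : cnj u0 ≠ 0 := by
        intro h3
        apply hu00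
        rw [← cnj_cnj u0, h3]
        funext i
        simp [cnj]
      have h7 := hZ.herm_pos h6
      rw [cnj_cnj, h5, mul_zero] at h7
      exact lt_irrefl _ h7
  have hfr : finrank ℂ (cjS cc U) = finrank ℂ (Dual ℂ U) := by
    rw [finrank_cjS, Subspace.dual_finrank_eq]
  let Pe := LinearEquiv.ofInjectiveOfFinrankEq P hPinj hfr
  have hPe : ∀ φ, P (Pe.symm φ) = φ := fun φ => Pe.apply_symm_apply φ
  obtain ⟨π, hπ1, hπ2, hπ3⟩ := hZ.cred U hU.2.1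
  let T1 : U →ₗ[ℂ] (Fin G ⊕ Fin G → ℂ) := (cjS cc U).subtype.comp (Pe.symm.toLinearMap.comp T0)
  have hT1 : ∀ u : U, T1 u = (Pe.symm (T0 u) : Fin G ⊕ Fin G → ℂ) := fun _ => rfl
  refine ⟨T1.comp (π.codRestrict U hπ2), fun u _ => ?_, fun u hu h0 => ?_,
    fun X hX u hu => ?_⟩
  · exact (Pe.symm (T0 (π.codRestrict U hπ2 u))).2
  · have h1 : π.codRestrict U hπ2 u = ⟨u, hu⟩ := Subtype.ext (hπ3 u hu)
    rw [LinearMap.comp_apply, h1, hT1] at h0
    have h2 : Pe.symm (T0 ⟨u, hu⟩) = 0 := Subtype.ext h0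
    have h3 := (LinearEquiv.map_eq_zero_iff _).1 h2
    exact congrArg Subtype.val (hT0 _ h3)
  · have hXu : X *ᵥ u ∈ U := (h.stab hZ).2 hU.2.1 X hX u hu
    have h1 : π.codRestrict U hπ2 u = ⟨u, hu⟩ := Subtype.ext (hπ3 u hu)
    have h2 : π.codRestrict U hπ2 (X *ᵥ u) = ⟨X *ᵥ u, hXu⟩ := Subtype.ext (hπ3 _ hXu)
    change T1 (π.codRestrict U hπ2 (X *ᵥ u)) = X *ᵥ T1 (π.codRestrict U hπ2 u) +
      μ X • T1 (π.codRestrict U hπ2 u)
    rw [h1, h2, hT1, hT1]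
    obtain ⟨y, hy⟩ : ∃ y, y = Pe.symm (T0 ⟨u, hu⟩) := ⟨_, rfl⟩
    obtain ⟨y', hy'⟩ : ∃ y', y' = Pe.symm (T0 ⟨X *ᵥ u, hXu⟩) := ⟨_, rfl⟩
    rw [← hy, ← hy']
    have hXy : X *ᵥ (y : Fin G ⊕ Fin G → ℂ) ∈ cjS cc U :=
      (h.stab hZ).2 hUb.2.1 X hX y y.2
    suffices h3 : y' = ⟨X *ᵥ y, hXy⟩ + μ X • y from congrArg Subtype.val h3
    apply hPinj
    refine LinearMap.ext fun w => ?_
    have hXw : X *ᵥ (w : Fin G ⊕ Fin G → ℂ) ∈ U := (h.stab hZ).2 hU.2.1 X hX w w.2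
    have h4 := hT X hX ⟨u, hu⟩ w ⟨X *ᵥ u, hXu⟩ ⟨X *ᵥ w, hXw⟩ rfl rfl
    have h5 := h.sp' hX (w : Fin G ⊕ Fin G → ℂ) (y : Fin G ⊕ Fin G → ℂ)
    have h6 : P y = T0 ⟨u, hu⟩ := by rw [hy, hPe]
    have h7 : P y' = T0 ⟨X *ᵥ u, hXu⟩ := by rw [hy', hPe]
    have h8 := LinearMap.congr_fun h6 w
    have h9 := LinearMap.congr_fun h6 ⟨X *ᵥ w, hXw⟩
    rw [hP] at h8 h9
    rw [h7, map_add, map_smul, LinearMap.add_apply, LinearMap.smul_apply, hP, hP, smul_eq_mul, h8]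
    linear_combination h4 - h5 + h9

/-- An isomorphism up to a character of the Lie algebra is a twisted isomorphism. -/
theorem tw_of_lie (h : TD Z S) (hZ : PM Z) {U U' : Submodule ℂ (Fin G ⊕ Fin G → ℂ)}
    (hU : IrS (LZ Z) U) (T : (Fin G ⊕ Fin G → ℂ) →ₗ[ℂ] (Fin G ⊕ Fin G → ℂ))
    (hTm : ∀ u ∈ U, T u ∈ U') (hTi : ∀ u ∈ U, T u = 0 → u = 0)
    (μ : Matrix (Fin G ⊕ Fin G) (Fin G ⊕ Fin G) ℂ → ℂ)
    (hT : ∀ X ∈ Y224.TS.LT S, ∀ u ∈ U, T (X *ᵥ u) = X *ᵥ T u + μ X • T u) :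
    ∃ ψ : Gam (GG (Y224.TS.LT S)) → ℂ, Tw (RG (GG (Y224.TS.LT S))) ψ U U' := by
  have hst := (h.stab hZ).2 hU.2.1
  obtain ⟨u0, hu0, hu00⟩ := Submodule.exists_mem_ne_zero_of_ne_bot hU.1
  have key : ∀ g : Gam (GG (Y224.TS.LT S)), ∃ c : ℂ, ∀ u ∈ U,
      T (RG (GG (Y224.TS.LT S)) g u) = c • RG (GG (Y224.TS.LT S)) g (T u) := by
    intro g
    refine gam_induction (p := fun g => ∃ c : ℂ, ∀ u ∈ U,
      T (RG (GG (Y224.TS.LT S)) g u) = c • RG (GG (Y224.TS.LT S)) g (T u))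
      (fun {D} hD hDG z => ?_) ⟨1, fun u _ => by rw [one_smul]; rfl⟩
      (fun g g' ⟨c, hg⟩ ⟨c', hg'⟩ => ⟨c * c', fun u hu => ?_⟩) g
    · obtain ⟨X, hX, rfl⟩ := exists_GG hDG
      have h1 := hT X hX
      by_cases hm : μ X = 0
      · refine ⟨1, fun u hu => ?_⟩
        rw [RG_gt, one_smul, torE_apply, torE_apply, map_add, map_smul, map_smul]
        congr 2
        have h2 := h1 u hu
        rw [hm, zero_smul, add_zero] at h2
        exact h2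
      · have hXX : ∀ v, X *ᵥ (X *ᵥ v) = v := fun v => by
          have h2 := LinearMap.congr_fun hD v
          exact h2
        -- the action on the image
        have h3 : ∀ u ∈ U, X *ᵥ T u = (-(μ X / 2)) • T u := by
          intro u hu
          have h4 := h1 _ (hst X hX u hu)
          rw [hXX, h1 u hu, mulVec_add, hXX, mulVec_smul, smul_add, smul_smul] at h4
          have h5 : (2 * μ X) • (X *ᵥ T u) = (2 * μ X) • ((-(μ X / 2)) • T u) := by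
            have h6 : (2 * μ X) • (X *ᵥ T u) + (μ X * μ X) • T u = 0 := by
              have h7 : (T u + μ X • (X *ᵥ T u) + (μ X • (X *ᵥ T u) + (μ X * μ X) • T u)) - T u =
                  0 := by rw [← h4, sub_self]
              rw [← h7]
              module
            rw [smul_smul]
            have h8 : 2 * μ X * -(μ X / 2) = -(μ X * μ X) := by ring
            rw [h8, neg_smul]
            exact eq_neg_of_add_eq_zero_left h6
          exact smul_right_injective _ (mul_ne_zero two_ne_zero hm) h5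
        have h4 : ∀ u ∈ U, X *ᵥ u = (μ X / 2) • u := by
          intro u hu
          have h5 := h1 u hu
          rw [h3 u hu] at h5
          have h6 : T (X *ᵥ u - (μ X / 2) • u) = 0 := by
            rw [map_sub, map_smul, h5]
            module
          exact sub_eq_zero.1 (hTi _ (U.sub_mem (hst X hX u hu) (U.smul_mem _ hu)) h6)
        have h5 : μ X / 2 = 1 ∨ μ X / 2 = -1 := by
          apply mul_self_eq_one_iff.1
          have h6 := hXX u0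
          rw [h4 u0 hu0, mulVec_smul, h4 u0 hu0, smul_smul] at h6
          have h7 : (μ X / 2 * (μ X / 2) - 1) • u0 = 0 := by rw [sub_smul, h6, one_smul, sub_self]
          exact sub_eq_zero.1 ((smul_eq_zero.1 h7).resolve_right hu00)
        have hz : (z : ℂ) ≠ 0 := z.ne_zero
        have h6 : ((((z : ℂ) + (z : ℂ)⁻¹) / 2) + (((z : ℂ) - (z : ℂ)⁻¹) / 2) * (-(μ X / 2))) ≠
            0 := by
          rcases h5 with h5 | h5
          · rw [h5]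
            have h7 : ((((z : ℂ) + (z : ℂ)⁻¹) / 2) + (((z : ℂ) - (z : ℂ)⁻¹) / 2) * (-1)) =
              (z : ℂ)⁻¹ := by ring
            rw [h7]
            exact inv_ne_zero hz
          · rw [h5]
            have h7 : ((((z : ℂ) + (z : ℂ)⁻¹) / 2) + (((z : ℂ) - (z : ℂ)⁻¹) / 2) * (-(-1))) =
              (z : ℂ) := by ring
            rw [h7]
            exact hz
        refine ⟨((((z : ℂ) + (z : ℂ)⁻¹) / 2) + (((z : ℂ) - (z : ℂ)⁻¹) / 2) * (μ X / 2)) *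
          ((((z : ℂ) + (z : ℂ)⁻¹) / 2) + (((z : ℂ) - (z : ℂ)⁻¹) / 2) * (-(μ X / 2)))⁻¹,
          fun u hu => ?_⟩
        rw [RG_gt, torE_apply, torE_apply]
        change T (_ • u + _ • (X *ᵥ u)) = _ • (_ • T u + _ • (X *ᵥ T u))
        rw [h3 u hu, h4 u hu, map_add, map_smul, map_smul, map_smul, smul_smul, smul_smul,
          ← add_smul, ← add_smul, smul_smul, mul_assoc, inv_mul_cancel₀ h6, mul_one]
    · rw [map_mul, Module.End.mul_apply, Module.End.mul_apply,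
        hg _ (gz_stable h.genI hst g' u hu), hg' u hu, map_smul, smul_smul]
  choose ψ hψ using key
  exact ⟨ψ, ⊤, inferInstance, T, hTm, ⟨u0, hu0, fun h1 => hu00 (hTi u0 hu0 h1)⟩,
    fun g _ u hu => hψ g u hu⟩

end one

section two

variable {G a : ℕ} {Z : Matrix (Fin G) (Fin G) ℂ} {Z' : Matrix (Fin a) (Fin a) ℂ}
  {E : Matrix (Fin G ⊕ Fin G) (Fin a ⊕ Fin a) ℚ} {F : Matrix (Fin a ⊕ Fin a) (Fin G ⊕ Fin G) ℚ}
  {S : Set (Matrix (Fin G ⊕ Fin G) (Fin G ⊕ Fin G) ℂ)}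

theorem ml_fe (hf : Fac Z Z' E F) (u : Fin a ⊕ Fin a → ℂ) : ml F (ml E u) = u := by
  rw [ml_apply, ml_apply, mulVec_mulVec, hf.fe', one_mulVec]

/-- The image of an irreducible submodule. -/
theorem irr_E (hf : Fac Z Z' E F) {U : Submodule ℂ (Fin a ⊕ Fin a → ℂ)} (hU : IrS (LZ Z') U) :
    IrS (LZ Z) (U.map (ml E)) := by
  have hact : ∀ X ∈ LZ Z, ∀ u, X *ᵥ ml E u = ml E ((cK ℂ F * X * cK ℂ E) *ᵥ u) := by
    intro X hX u
    rw [ml_apply, ml_apply, mulVec_mulVec, mulVec_mulVec, ← (hf.comp hX).2.1]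
  refine ⟨?_, ?_, ?_⟩
  · intro h1
    obtain ⟨u, hu, hu0⟩ := Submodule.exists_mem_ne_zero_of_ne_bot hU.1
    have h2 : ml E u ∈ U.map (ml E) := ⟨u, hu, rfl⟩
    rw [h1, Submodule.mem_bot] at h2
    apply hu0
    rw [← ml_fe hf u, h2, map_zero]
  · rintro X hX _ ⟨u, hu, rfl⟩
    rw [hact X hX]
    exact ⟨_, hU.2.1 _ (hf.comp hX).1 u hu, rfl⟩
  · intro W hW hs
    have h1 : Stab (LZ Z') (U ⊓ W.comap (ml E)) := by
      rintro Y hY u ⟨hu, hu'⟩
      obtain ⟨X, hX, rfl⟩ := hf.lift hY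
      refine ⟨hU.2.1 _ (hf.comp hX).1 u hu, ?_⟩
      change ml E _ ∈ W
      rw [← hact X hX]
      exact hs X hX _ hu'
    rcases hU.2.2 _ inf_le_left h1 with h2 | h2
    · left
      rw [eq_bot_iff]
      intro w hw
      obtain ⟨u, hu, rfl⟩ := hW hw
      have h3 : u ∈ U ⊓ W.comap (ml E) := ⟨hu, hw⟩
      rw [h2, Submodule.mem_bot] at h3
      rw [h3, map_zero]
      exact Submodule.zero_mem _
    · right
      apply le_antisymm hW
      rintro _ ⟨u, hu, rfl⟩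
      have h3 : u ∈ U ⊓ W.comap (ml E) := by rw [h2]; exact hu
      exact h3.2

/-- A form which is invariant up to a factor and a separated centre: the central endomorphisms have
real eigenvalues. -/
theorem form_real (h : TD Z S) (hZ : PM Z) {M : Matrix (Fin G ⊕ Fin G) (Fin G ⊕ Fin G) ℚ}
    (k : CG Z M) (hsep : SepN fun s => pd Z (VE M s)) (hf : Fac Z Z' E F) (h' : PM Z')
    {U : Submodule ℂ (Fin a ⊕ Fin a → ℂ)} (hU : IrS (LZ Z') U) (hn : 2 ≤ finrank ℂ U)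
    (T0 : U →ₗ[ℂ] Dual ℂ U) (hT0 : ∀ x, T0 x = 0 → x = 0)
    (μ : Matrix (Fin a ⊕ Fin a) (Fin a ⊕ Fin a) ℂ → ℂ)
    (hT : ∀ X ∈ Y224.TS.LT (SF E F S), ∀ x y x' y' : U, (x' : Fin a ⊕ Fin a → ℂ) = X *ᵥ x →
      (y' : Fin a ⊕ Fin a → ℂ) = X *ᵥ y → T0 x' y + T0 x y' = μ X * T0 x y)
    {C : Matrix (Fin a ⊕ Fin a) (Fin a ⊕ Fin a) ℚ} (hC : CentM Z' C) {z : ℂ}
    (hz : ∀ u ∈ U, qm C *ᵥ u = z • u) : cc z = z := by
  have h1 := tdF hf h hZ h'
  obtain ⟨T, hTm, hTi, hTX⟩ := exists_T h1 h' hU T0 hT0 μ hT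
  have hUb : IrS (LZ Z') (cjS cc U) := hU.cj gal_LZ cc
  have hact : ∀ X ∈ Y224.TS.LT S, ∀ u, X *ᵥ ml E u = ml E ((cK ℂ F * X * cK ℂ E) *ᵥ u) := by
    intro X hX u
    rw [ml_apply, ml_apply, mulVec_mulVec, mulVec_mulVec, ← xe hf h hX]
  have hinjE : ∀ u, ml E u = 0 → u = 0 := by
    intro u hu
    rw [← ml_fe hf u, hu, map_zero]
  obtain ⟨ψ, hψ⟩ := tw_of_lie h hZ (irr_E hf hU) (U' := (cjS cc U).map (ml E))
    ((ml E).comp (T.comp (ml F))) (by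
      rintro _ ⟨u, hu, rfl⟩
      rw [LinearMap.comp_apply, LinearMap.comp_apply, ml_fe hf]
      exact ⟨_, hTm u hu, rfl⟩) (by
      rintro _ ⟨u, hu, rfl⟩ h2
      rw [LinearMap.comp_apply, LinearMap.comp_apply, ml_fe hf] at h2
      rw [hTi u hu (hinjE _ h2), map_zero]) (fun X => μ (cK ℂ F * X * cK ℂ E)) (by
      rintro X hX _ ⟨u, hu, rfl⟩
      rw [hact X hX]
      simp only [LinearMap.comp_apply]
      rw [ml_fe hf, ml_fe hf, hTX _ (compT hf h hX) u hu, map_add, map_smul, ← hact X hX])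
  obtain ⟨Δ, hΔ, T1, hT1, hT2, hT3⟩ := tw_sep h hZ k hsep (irr_E hf hU) (irr_E hf hUb)
    (by
      have h2 : finrank ℂ (U.map (ml E)) = finrank ℂ U :=
        finrank_ml (F := E) fun u _ hu => hinjE u hu
      rw [h2]
      exact hn) ψ hψ
  obtain rfl := fi_top Δ hΔ
  have hst : Stab (Y224.TS.LT S) (U.map (ml E)) := (h.stab hZ).2 (irr_E hf hU).2.1
  have hT4 : ∀ X ∈ Y224.TS.LT S, ∀ u ∈ U.map (ml E), T1 (X *ᵥ u) = X *ᵥ T1 u := by
    refine (gz_equiv h.genI hst T1).1 fun g u hu => ?_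
    rw [hT3 g (Subgroup.mem_top g) u hu, one_smul]
  let T2 : (Fin a ⊕ Fin a → ℂ) →ₗ[ℂ] (Fin a ⊕ Fin a → ℂ) := (ml F).comp (T1.comp (ml E))
  have hT5 : ∀ X ∈ Y224.TS.LT (SF E F S), ∀ u ∈ U, T2 (X *ᵥ u) = X *ᵥ T2 u := by
    intro Y hY u hu
    obtain ⟨X, hX, rfl⟩ := liftT hf h hY
    change ml F (T1 (ml E _)) = _ *ᵥ ml F (T1 (ml E u))
    rw [← hact X hX, hT4 X hX _ ⟨u, hu, rfl⟩, actT hf h hX]
  have hT6 := (h1.eqv_on h' hU.2.1 T2).1 hT5
  obtain ⟨_, ⟨u, hu, rfl⟩, hu1⟩ := hT2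
  obtain ⟨w, hw, hw1⟩ := hT1 _ ⟨u, hu, rfl⟩
  have hw2 : T2 u = w := by
    change ml F (T1 (ml E u)) = w
    rw [← hw1, ml_fe hf]
  have hw0 : w ≠ 0 := by
    rintro rfl
    apply hu1
    rw [← hw1, map_zero]
  have e1 := label_iso h' hC hU.2.1 hT6 hz u hu
  rw [hw2] at e1
  have e2 : cjS cc U ≤ VE C (cc z) := by
    rw [← VE_cj]
    exact cjS_mono fun u hu => mem_VE.2 (hz u hu)
  have e3 := mem_VE.1 (e2 hw)
  rw [e1] at e3
  have e4 : (z - cc z) • w = 0 := by rw [sub_smul, e3, sub_self]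
  exact (sub_eq_zero.1 ((smul_eq_zero.1 e4).resolve_right hw0)).symm

end two

end

end Pool.Agent.N183.U6
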