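import Mathlib
import Pool.Agent.N183.U5.Slp

/-!
# Irreducible Lie algebras which are normalised by a reflection of order two
-/

set_option linter.unusedSectionVars false

namespace Pool.Agent.N183.U6

open Module Polynomial
open Pool.Agent.W548.Odd (rk)

noncomputable section

variable {V : Type} [AddCommGroup V] [Module ℂ V]

/-- The operator `y ↦ f y • w + φ y • v`. -/
def Mo (v : V) (f : Dual ℂ V) (w : V) (φ : Dual ℂ V) : End ℂ V := f.smulRight w + φ.smulRight v

theorem Mo_apply (v : V) (f : Dual ℂ V) (w : V) (φ : Dual ℂ V) (y : V) :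
    Mo v f w φ y = f y • w + φ y • v := rfl

/-- The odd part with respect to the decomposition of the space. -/
def odd (v : V) (f : Dual ℂ V) (X : End ℂ V) : End ℂ V :=
  Mo v f (X v - f (X v) • v) (f.comp X - f (X v) • f)

theorem odd_apply (v : V) (f : Dual ℂ V) (X : End ℂ V) (y : V) :
    odd v f X y = f y • (X v - f (X v) • v) + (f (X y) - f (X v) * f y) • v := rfl

theorem rk_smulR {φ : Dual ℂ V} (hφ : φ ≠ 0) {w : V} (hw : w ≠ 0) :
    rk (φ.smulRight w : End ℂ V) = 1 := by
  unfold rk
  have h1 : LinearMap.range (φ.smulRight w : End ℂ V) = Submodule.span ℂ {w} := by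
    apply le_antisymm
    · rintro _ ⟨y, rfl⟩
      exact Submodule.smul_mem _ _ (Submodule.mem_span_singleton_self w)
    · rw [Submodule.span_le, Set.singleton_subset_iff]
      obtain ⟨y, hy⟩ : ∃ y, φ y ≠ 0 := by
        by_contra h
        push Not at h
        exact hφ (LinearMap.ext h)
      refine ⟨(φ y)⁻¹ • y, ?_⟩
      rw [LinearMap.smulRight_apply, map_smul, smul_eq_mul, inv_mul_cancel₀ hy, one_smul]
  rw [h1, finrank_span_singleton hw]

/-- **Reflections.** An irreducible Lie algebra which is normalised by a reflection (of order two)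
contains an element of rank one, or it is contained in the Lie algebra of similitudes of a
nondegenerate form. -/
theorem rk1_or_form {𝔤 : Submodule ℂ (End ℂ V)} (hbr : ∀ X ∈ 𝔤, ∀ Y ∈ 𝔤, X * Y - Y * X ∈ 𝔤)
    (hirr : ∀ W : Submodule ℂ V, (∀ X ∈ 𝔤, ∀ u ∈ W, X u ∈ W) → W = ⊥ ∨ W = ⊤)
    {v : V} {f : Dual ℂ V} (hfv : f v = 1) (hodd : ∀ X ∈ 𝔤, odd v f X ∈ 𝔤) :
    (∃ x ∈ 𝔤, rk x = 1) ∨ ∃ T : V →ₗ[ℂ] Dual ℂ V, (∀ x, T x = 0 → x = 0) ∧
      ∀ X ∈ 𝔤, ∀ x y, T (X x) y + T x (X y) = (2 * f (X v)) * T x y := by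
  have hv0 : v ≠ 0 := by
    rintro rfl
    rw [map_zero] at hfv
    exact zero_ne_one hfv
  have hf0 : f ≠ 0 := by
    rintro rfl
    rw [LinearMap.zero_apply] at hfv
    exact zero_ne_one hfv
  -- the even part
  have heven : ∀ X ∈ 𝔤, ∃ Y ∈ 𝔤, X = Y + odd v f X ∧ Y v = f (X v) • v ∧
      ∀ y, f (Y y) = f (X v) * f y := by
    intro X hX
    refine ⟨X - odd v f X, 𝔤.sub_mem hX (hodd X hX), by abel, ?_, fun y => ?_⟩
    · rw [LinearMap.sub_apply, odd_apply, hfv]
      module
    · rw [LinearMap.sub_apply, odd_apply, map_sub, map_add, map_smul, map_smul, map_sub, map_smul,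
        hfv]
      simp only [smul_eq_mul]
      ring
  -- the bracket with an even element
  have hbre : ∀ Y ∈ 𝔤, ∀ t : ℂ, Y v = t • v → (∀ y, f (Y y) = t * f y) → ∀ w φ,
      Mo v f w φ ∈ 𝔤 → Mo v f (Y w - t • w) (t • φ - φ.comp Y) ∈ 𝔤 := by
    intro Y hY t h1 h2 w φ hM
    have h3 := hbr Y hY _ hM
    have h4 : Y * Mo v f w φ - Mo v f w φ * Y = Mo v f (Y w - t • w) (t • φ - φ.comp Y) := by
      refine LinearMap.ext fun y => ?_
      rw [LinearMap.sub_apply, Module.End.mul_apply, Module.End.mul_apply, Mo_apply, Mo_apply,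
        Mo_apply, map_add, map_smul, map_smul, h1, h2]
      simp only [LinearMap.sub_apply, LinearMap.smul_apply, LinearMap.comp_apply, smul_eq_mul]
      module
    rwa [h4] at h3
  by_cases hrk : ∃ x ∈ 𝔤, rk x = 1
  · exact Or.inl hrk
  right
  push Not at hrk
  -- surjectivity
  have hsurj : ∀ w, f w = 0 → ∃ φ : Dual ℂ V, φ v = 0 ∧ Mo v f w φ ∈ 𝔤 := by
    let W0 : Submodule ℂ V :=
      { carrier := {y | ∃ φ : Dual ℂ V, φ v = 0 ∧ Mo v f (y - f y • v) φ ∈ 𝔤}
        add_mem' := by
          rintro a b ⟨φ, h1, h2⟩ ⟨φ', h3, h4⟩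
          refine ⟨φ + φ', by rw [LinearMap.add_apply, h1, h3, add_zero], ?_⟩
          have h5 := 𝔤.add_mem h2 h4
          have h6 : Mo v f (a - f a • v) φ + Mo v f (b - f b • v) φ' =
              Mo v f (a + b - f (a + b) • v) (φ + φ') := by
            refine LinearMap.ext fun y => ?_
            rw [LinearMap.add_apply, Mo_apply, Mo_apply, Mo_apply, LinearMap.add_apply, map_add]
            module
          rwa [h6] at h5
        zero_mem' := by
          refine ⟨0, by rw [LinearMap.zero_apply], ?_⟩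
          have h6 : Mo v f (0 - f 0 • v) 0 = 0 := by
            refine LinearMap.ext fun y => ?_
            rw [Mo_apply, map_zero]
            simp
          rw [h6]
          exact 𝔤.zero_mem
        smul_mem' := by
          rintro c a ⟨φ, h1, h2⟩
          refine ⟨c • φ, by rw [LinearMap.smul_apply, h1, smul_zero], ?_⟩
          have h5 := 𝔤.smul_mem c h2
          have h6 : c • Mo v f (a - f a • v) φ = Mo v f (c • a - f (c • a) • v) (c • φ) := by
            refine LinearMap.ext fun y => ?_
            rw [LinearMap.smul_apply, Mo_apply, Mo_apply, LinearMap.smul_apply, map_smul,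
              smul_eq_mul, smul_eq_mul]
            module
          rwa [h6] at h5 }
    have hW0 : ∀ X ∈ 𝔤, ∀ u ∈ W0, X u ∈ W0 := by
      rintro X hX y ⟨φ, h1, h2⟩
      obtain ⟨Y, hY, hXY, hY1, hY2⟩ := heven X hX
      have h3 := hbre Y hY _ hY1 hY2 _ _ h2
      have h4 := 𝔤.smul_mem (f (X v)) h2
      have h5 := 𝔤.smul_mem (f y) (hodd X hX)
      have h6 := 𝔤.add_mem (𝔤.add_mem h3 h4) h5
      refine ⟨((f (X v)) • φ - φ.comp Y) + (f (X v)) • φ + f y • (f.comp X - f (X v) • f),
        ?_, ?_⟩
      · simp only [LinearMap.add_apply, LinearMap.sub_apply, LinearMap.smul_apply,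
          LinearMap.comp_apply, h1, hY1, map_smul, hfv, smul_eq_mul]
        ring
      · convert h6 using 1
        refine LinearMap.ext fun z => ?_
        have h7 : X y = Y y + odd v f X y := by
          conv_lhs => rw [hXY]
          rfl
        have h8 : f (X y) = f (X y) := rfl
        simp only [LinearMap.add_apply, LinearMap.smul_apply, Mo_apply, odd_apply,
          LinearMap.sub_apply, LinearMap.comp_apply, smul_eq_mul]
        rw [map_sub, map_smul, hY1]
        have h9 : Y y = X y - odd v f X y := by rw [h7]; abel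
        rw [h9, odd_apply]
        module
    rcases hirr W0 hW0 with h1 | h1
    · exfalso
      have h2 : v ∈ W0 := by
        refine ⟨0, by rw [LinearMap.zero_apply], ?_⟩
        have h6 : Mo v f (v - f v • v) 0 = 0 := by
          refine LinearMap.ext fun y => ?_
          rw [Mo_apply, hfv]
          simp
        rw [h6]
        exact 𝔤.zero_mem
      rw [h1, Submodule.mem_bot] at h2
      exact hv0 h2
    · intro w hw
      have h2 : w ∈ W0 := by
        rw [h1]
        trivial
      obtain ⟨φ, h3, h4⟩ := h2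
      refine ⟨φ, h3, ?_⟩
      rwa [hw, zero_smul, sub_zero] at h4
  -- uniqueness
  have hinj2 : ∀ φ : Dual ℂ V, Mo v f 0 φ ∈ 𝔤 → φ = 0 := by
    intro φ h1
    by_contra h2
    apply hrk _ h1
    have h3 : Mo v f 0 φ = φ.smulRight v := by
      refine LinearMap.ext fun y => ?_
      rw [Mo_apply, smul_zero, zero_add]
      rfl
    rw [h3, rk_smulR h2 hv0]
  have hinj1 : ∀ w, Mo v f w 0 ∈ 𝔤 → w = 0 := by
    intro w h1
    by_contra h2
    apply hrk _ h1
    have h3 : Mo v f w 0 = f.smulRight w := by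
      refine LinearMap.ext fun y => ?_
      rw [Mo_apply, LinearMap.zero_apply, zero_smul, add_zero]
      rfl
    rw [h3, rk_smulR hf0 h2]
  have huniq : ∀ w φ φ', Mo v f w φ ∈ 𝔤 → Mo v f w φ' ∈ 𝔤 → φ = φ' := by
    intro w φ φ' h1 h2
    have h3 := 𝔤.sub_mem h1 h2
    have h4 : Mo v f w φ - Mo v f w φ' = Mo v f 0 (φ - φ') := by
      refine LinearMap.ext fun y => ?_
      rw [LinearMap.sub_apply, Mo_apply, Mo_apply, Mo_apply, LinearMap.sub_apply]
      module
    rw [h4] at h3
    exact sub_eq_zero.1 (hinj2 _ h3)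
  have hker : ∀ y, f (y - f y • v) = 0 := by
    intro y
    rw [map_sub, map_smul, hfv, smul_eq_mul, mul_one, sub_self]
  choose th hth using fun y => hsurj (y - f y • v) (hker y)
  let θ : V →ₗ[ℂ] Dual ℂ V :=
    { toFun := th
      map_add' := by
        intro a b
        refine huniq _ _ _ (hth (a + b)).2 ?_
        have h5 := 𝔤.add_mem (hth a).2 (hth b).2
        convert h5 using 1
        refine LinearMap.ext fun y => ?_
        rw [LinearMap.add_apply, Mo_apply, Mo_apply, Mo_apply, LinearMap.add_apply, map_add]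
        module
      map_smul' := by
        intro c a
        refine huniq _ _ _ (hth (c • a)).2 ?_
        have h5 := 𝔤.smul_mem c (hth a).2
        convert h5 using 1
        refine LinearMap.ext fun y => ?_
        rw [LinearMap.smul_apply, Mo_apply, Mo_apply, LinearMap.smul_apply, map_smul,
          smul_eq_mul, smul_eq_mul, RingHom.id_apply]
        module }
  have hθ : ∀ y, Mo v f (y - f y • v) (θ y) ∈ 𝔤 := fun y => (hth y).2
  have hθv : ∀ y, θ y v = 0 := fun y => (hth y).1
  have hθ0 : ∀ w, f w = 0 → Mo v f w (θ w) ∈ 𝔤 := by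
    intro w hw
    have h1 := hθ w
    rwa [hw, zero_smul, sub_zero] at h1
  have hvθ : θ v = 0 := by
    apply hinj2
    have h1 := hθ v
    rwa [hfv, one_smul, sub_self] at h1
  have hθinj : ∀ w, f w = 0 → θ w = 0 → w = 0 := by
    intro w h1 h2
    apply hinj1
    have h3 := hθ0 w h1
    rwa [h2] at h3
  have hred : ∀ y, θ (y - f y • v) = θ y := by
    intro y
    rw [map_sub, map_smul, hvθ, smul_zero, sub_zero]
  -- invariance under even elements
  have hinv : ∀ Y ∈ 𝔤, ∀ t : ℂ, Y v = t • v → (∀ y, f (Y y) = t * f y) → ∀ x y,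
      θ (Y x) y + θ x (Y y) = 2 * t * θ x y := by
    intro Y hY t h1 h2 x y
    have h3 : f (x - f x • v) = 0 := hker x
    obtain ⟨w, hw⟩ : ∃ w, w = x - f x • v := ⟨_, rfl⟩
    rw [← hw] at h3
    have h4 := hbre Y hY t h1 h2 w (θ w) (hθ0 w h3)
    have h5 : f (Y w - t • w) = 0 := by
      rw [map_sub, h2, map_smul, h3, mul_zero, smul_zero, sub_zero]
    have h6 := huniq _ _ _ (hθ0 _ h5) h4
    have h7 := LinearMap.congr_fun h6 y
    rw [map_sub, map_smul] at h7
    simp only [LinearMap.sub_apply, LinearMap.smul_apply, LinearMap.comp_apply, smul_eq_mul] at h7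
    have h8 : θ w = θ x := by rw [hw, hred]
    have h9 : θ (Y w) = θ (Y x) := by
      rw [hw, map_sub, map_smul, h1, map_sub, map_smul, map_smul, hvθ, smul_zero, smul_zero,
        sub_zero]
    rw [h8, h9] at h7
    linear_combination h7
  -- symmetry
  have hsym0 : ∀ w w', f w = 0 → f w' = 0 → θ w w' = θ w' w := by
    intro w w' hw hw'
    by_cases hw0 : w = 0
    · rw [hw0, map_zero, LinearMap.zero_apply, map_zero]
    have h1 := hbr _ (hθ0 w hw) _ (hθ0 w' hw')
    obtain ⟨Y, hYdef⟩ : ∃ Y, Y = Mo v f w (θ w) * Mo v f w' (θ w') -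
      Mo v f w' (θ w') * Mo v f w (θ w) := ⟨_, rfl⟩
    rw [← hYdef] at h1
    have hY : ∀ y, Y y = θ w' y • w - θ w y • w' + (f y * (θ w w' - θ w' w)) • v := by
      intro y
      rw [hYdef, LinearMap.sub_apply, Module.End.mul_apply, Module.End.mul_apply]
      simp only [Mo_apply, map_add, map_smul, hw, hw', hfv, hθv]
      module
    have h2 : Y v = (θ w w' - θ w' w) • v := by
      rw [hY, hθv, hθv, hfv]
      module
    have h3 : ∀ y, f (Y y) = (θ w w' - θ w' w) * f y := by
      intro y
      rw [hY, map_add, map_sub, map_smul, map_smul, map_smul, hw, hw', hfv]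
      simp only [smul_eq_mul]
      ring
    have h4 : ∀ y, (θ w w' - θ w' w) * θ w y = 0 := by
      intro y
      have h5 := hinv Y h1 _ h2 h3 w y
      rw [hY, hY, hw] at h5
      simp only [map_add, map_sub, map_smul, LinearMap.add_apply, LinearMap.sub_apply,
        LinearMap.smul_apply, hvθ, LinearMap.zero_apply, hθv, smul_eq_mul] at h5
      linear_combination (-1 / 3 : ℂ) * h5
    by_contra h5
    apply hw0
    apply hθinj w hw
    refine LinearMap.ext fun y => ?_
    rw [LinearMap.zero_apply]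
    exact (mul_eq_zero.1 (h4 y)).resolve_left (sub_ne_zero.2 h5)
  have hsym : ∀ x y, θ x y = θ y x := by
    intro x y
    have h1 := hsym0 _ _ (hker x) (hker y)
    rw [hred, hred, map_sub, map_smul, map_sub, map_smul, hθv, hθv] at h1
    simpa using h1
  refine ⟨θ - f.smulRight f, fun x hx => ?_, fun X hX x y => ?_⟩
  · have h1 := LinearMap.congr_fun hx v
    rw [LinearMap.sub_apply, LinearMap.sub_apply, hθv, LinearMap.smulRight_apply,
      LinearMap.smul_apply, hfv, LinearMap.zero_apply, smul_eq_mul, mul_one, zero_sub,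
      neg_eq_zero] at h1
    refine hθinj x h1 ?_
    rw [LinearMap.sub_apply, LinearMap.smulRight_apply, h1, zero_smul, sub_zero] at hx
    exact hx
  · obtain ⟨Y, hY, hXY, hY1, hY2⟩ := heven X hX
    have hT : ∀ x y, (θ - f.smulRight f) x y = θ x y - f x * f y := by
      intro x y
      rw [LinearMap.sub_apply, LinearMap.sub_apply, LinearMap.smulRight_apply,
        LinearMap.smul_apply, smul_eq_mul]
    have h1 := hinv Y hY _ hY1 hY2 x y
    -- the odd part
    obtain ⟨w, hw⟩ : ∃ w, w = X v - f (X v) • v := ⟨_, rfl⟩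
    obtain ⟨φ, hφ⟩ : ∃ φ, φ = f.comp X - f (X v) • f := ⟨_, rfl⟩
    have h2 : Mo v f w φ ∈ 𝔤 := by
      rw [hw, hφ]
      exact hodd X hX
    have h3 : f w = 0 := by
      rw [hw]
      exact hker _
    have h4 : φ = θ w := huniq _ _ _ h2 (hθ0 w h3)
    have h5 : ∀ y, X y = Y y + (f y • w + θ w y • v) := by
      intro y
      conv_lhs => rw [hXY]
      rw [LinearMap.add_apply]
      congr 1
      rw [← h4, hw, hφ]
      rfl
    rw [hT, hT, hT, h5 x, h5 y]
    simp only [map_add, map_smul, LinearMap.add_apply, LinearMap.smul_apply, hvθ,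
      LinearMap.zero_apply, hθv, smul_eq_mul, h3, hY2, hfv]
    rw [hsym x w]
    linear_combination h1

end

end Pool.Agent.N183.U6
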