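import Mathlib
import Pool.Agent.N183.U5.Stm

/-!
# Reflections of order two, and combinations of elements of the Galois group
-/

namespace Pool.Agent.N183.U6

open Module Pool.Agent.Y90 Pool.Agent.R915 Polynomial TensorProduct
open Pool.Agent.N183.U5

/-- `Y` is of Albert type IV: some central endomorphism `z` has no real eigenvalue. -/
def TypeFour (Y : AV) : Prop :=
  ∃ z : Module.End ℚ Y.H, IsHom Y Y z ∧ (∀ f : Module.End ℚ Y.H, IsHom Y Y f → f * z = z * f) ∧
    ∀ x : ℝ, aeval (x : ℂ) (minpoly ℚ z) ≠ 0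

/-- The operator `t` acts on the stable subspace `W` as a pseudo-reflection or as a transvection:
it is invertible and `t - 1` has rank one. -/
def IsPseudo {V : Type} [AddCommGroup V] [Module ℂ V] (t : Module.End ℂ V)
    (W : Submodule ℂ V) : Prop :=
  (∀ w ∈ W, t w ∈ W ∧ (t w = 0 → w = 0)) ∧ finrank ℂ (W.map (t - 1)) = 1

/-- On the operators `φ` of the subspace `W` conjugation by `s` is a linear combination of the
conjugations by the operators `t i`, with inverses `t' i`. -/
def IsComb {V : Type} [AddCommGroup V] [Module ℂ V] (s : Module.End ℂ V) {m : ℕ}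
    (t t' : Fin m → Module.End ℂ V) (W : Submodule ℂ V) : Prop :=
  ∃ c : Fin m → ℂ, ∀ φ : Module.End ℂ V, (∀ w ∈ W, φ w ∈ W) →
    ∀ w ∈ W, s (φ w) = ∑ i, c i • t i (φ (t' i (s w)))

variable {K : Type} [Field K] [CharZero K] [Algebra K ℂ] {Γ : Type} [Group Γ]

/-- Some operator `s` acts on `V_s` as a pseudo-reflection or a transvection, and conjugation by it
is a linear combination of the conjugations by elements `γ i` of the Galois group. For instance this
holds if an element of the Galois group acts as a pseudo-reflection. If it is a reflection of order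
two then `Y` has to be of type IV. -/
def GalRefl (X : AV) (ρ : Representation K Γ (K ⊗[ℚ] X.H)) (Y : AV)
    (W : Submodule ℂ (ℂ ⊗[K] (K ⊗[ℚ] Y.H))) : Prop :=
  ∃ (s : Module.End ℂ (ℂ ⊗[K] (K ⊗[ℚ] Y.H))) (m : ℕ) (γ : Fin m → Γ)
    (t t' : Fin m → Module.End K (K ⊗[ℚ] Y.H)), IsPseudo s W ∧
    (TypeFour Y ∨ ∃ w ∈ W, s (s w) ≠ w) ∧
      (∀ i, ActsBy X ρ Y (γ i) (t i) ∧ ActsBy X ρ Y (γ i)⁻¹ (t' i)) ∧
        IsComb s (fun i => (t i).baseChange ℂ) (fun i => (t' i).baseChange ℂ) W

/-- For each embedding `s` of `ℚ[a]` there is a pseudo-reflection or a transvection of `V_s`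
conjugation by which is a combination of conjugations by elements of the Galois group, or some
element of the Galois group acts on `V_s` with two classes of eigenvalues of coprime multiplicities.
All this may depend on `s`. -/
def GalMultTwo (X : AV) (ρ : Representation K Γ (K ⊗[ℚ] X.H)) (Y : AV) : Prop :=
  ∃ a : Module.End ℚ Y.H, MaxField Y a ∧
    ∀ s : ℂ, aeval s (minpoly ℚ a) = 0 → GalRefl X ρ Y (VS K Y a s) ∨
      ∃ (γ : Γ) (t : Module.End K (K ⊗[ℚ] Y.H)),
        ActsBy X ρ Y γ t ∧ TwoClasses (t.baseChange ℂ) (VS K Y a s)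

end Pool.Agent.N183.U6
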