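import Mathlib
import Pool.Agent.N183.U5.Cls
import Pool.Agent.N183.U6.Stm
import Pool.Agent.N183.U6.Refl
import Pool.Agent.N183.U6.Orth

/-!
# The local conditions for the new class
-/

set_option linter.unusedSectionVars false

namespace Pool.Agent.N183.U6

open Matrix Module Pool.Agent.W437.HC Pool.Agent.W437.HD Pool.Agent.W548.Odd Pool.Agent.W522.U
open Pool.Agent.H204R3.SP Pool.Agent.H204R3.GP Pool.Agent.Y90 Pool.Agent.Y224.TS TensorProduct
open Pool.Agent.Y224.TS.St (IsHodgeTate IsTateModule)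
open Pool.Agent.W437.HP (cK cK_mul cK_one)
open Pool.Agent.R915 (VE mem_VE VE_cj VE_main VE_stab commL_of pd_sig eig_conj root_conj hom_iff
  hom_iff' CentM aeval_eig)
open Pool.Agent.N183.TS Pool.Agent.N183.U5
open Polynomial

noncomputable section

section lin

variable {V : Type} [AddCommGroup V] [Module ℂ V] [FiniteDimensional ℂ V]

/-- Reflections of order two. -/
theorem exists_vf {s : End ℂ V} (h1 : rk (s - 1) = 1) (h2 : s * s = 1) :
    ∃ (v : V) (f : Dual ℂ V), f v = 1 ∧ ∀ x, s x = x - (2 * f x) • v := by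
  obtain ⟨u, φ, hu, hN⟩ := exists_uφ h1
  have h3 : ∀ x, s x = x + φ x • u := by
    intro x
    have h4 := LinearMap.congr_fun hN x
    rw [LinearMap.sub_apply, Module.End.one_apply, sub_eq_iff_eq_add] at h4
    rw [h4, add_comm]
    rfl
  have hφ : ∃ x, φ x ≠ 0 := by
    by_contra hcon
    push Not at hcon
    have h4 : s - 1 = 0 := by
      refine LinearMap.ext fun x => ?_
      rw [LinearMap.sub_apply, h3, hcon, zero_smul, add_zero, Module.End.one_apply, sub_self]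
      rfl
    rw [h4] at h1
    unfold rk at h1
    rw [LinearMap.range_zero, finrank_bot] at h1
    exact zero_ne_one h1
  obtain ⟨x, hx⟩ := hφ
  have h4 : s (s x) = x := by
    rw [← Module.End.mul_apply, h2]
    rfl
  rw [h3 x, h3, map_add, map_smul, smul_eq_mul] at h4
  have h5 : (2 * φ x + φ x * φ u) • u = 0 := by
    have h6 : x + φ x • u + (φ x + φ x * φ u) • u - x = 0 := by rw [h4, sub_self]
    rw [← h6]
    module
  have h6 := (smul_eq_zero.1 h5).resolve_right hu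
  have h7 : φ u = -2 := by
    have h8 : φ x * (2 + φ u) = 0 := by linear_combination h6
    have h9 := (mul_eq_zero.1 h8).resolve_left hx
    linear_combination h9
  refine ⟨u, (-(1 / 2) : ℂ) • φ, ?_, fun y => ?_⟩
  · rw [LinearMap.smul_apply, h7, smul_eq_mul]
    norm_num
  · rw [h3, LinearMap.smul_apply, smul_eq_mul]
    module

/-- Reflections: elements of rank one or forms. -/
theorem rk1_of_pseudo {𝔤 : Submodule ℂ (End ℂ V)} (hbr : ∀ X ∈ 𝔤, ∀ Y ∈ 𝔤, X * Y - Y * X ∈ 𝔤)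
    (hirr : ∀ W : Submodule ℂ V, (∀ X ∈ 𝔤, ∀ u ∈ W, X u ∈ W) → W = ⊥ ∨ W = ⊤)
    (hV : 2 ≤ finrank ℂ V) {s s' : End ℂ V} (h1 : s * s' = 1) (h2 : s' * s = 1)
    (hn : ∀ X ∈ 𝔤, s * X * s' ∈ 𝔤) (hr : rk (s - 1) = 1) :
    (∃ x ∈ 𝔤, rk x = 1) ∨ (s * s = 1 ∧ ∃ (T : V →ₗ[ℂ] Dual ℂ V) (μ : End ℂ V → ℂ),
      (∀ x, T x = 0 → x = 0) ∧ ∀ X ∈ 𝔤, ∀ x y, T (X x) y + T x (X y) = μ X * T x y) := by
  by_cases h3 : s * s = 1
  · rcases eq_or_ne s' s with h4 | h4
    swap
    · exfalso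
      apply h4
      calc s' = s' * (s * s) := by rw [h3, mul_one]
        _ = s := by rw [← mul_assoc, h2, one_mul]
    subst h4
    obtain ⟨v, f, hfv, hs⟩ := exists_vf hr h3
    rcases rk1_or_form hbr hirr hfv (fun X hX => by
      have h5 : odd v f X = (1 / 2 : ℂ) • (X - s' * X * s') := by
        refine LinearMap.ext fun y => ?_
        rw [odd_apply, LinearMap.smul_apply, LinearMap.sub_apply, Module.End.mul_apply,
          Module.End.mul_apply, hs y, map_sub, map_smul, hs]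
        simp only [map_sub, map_smul, smul_eq_mul]
        module
      rw [h5]
      exact 𝔤.smul_mem _ (𝔤.sub_mem hX (hn X hX))) with h5 | ⟨T, hT1, hT2⟩
    · exact Or.inl h5
    · exact Or.inr ⟨h3, T, fun X => 2 * f (X v), hT1, hT2⟩
  · left
    have hinj : ∀ X, s * X * s' = 0 → X = 0 := by
      intro X hX
      calc X = (s' * s) * X * (s' * s) := by rw [h2, one_mul, mul_one]
        _ = s' * (s * X * s') * s := by noncomm_ring
        _ = 0 := by rw [hX, mul_zero, zero_mul]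
    let A : End ℂ 𝔤 := (Adj s s').restrict hn
    have hAinj : Function.Injective A := by
      rw [← LinearMap.ker_eq_bot, eq_bot_iff]
      rintro ⟨X, hX⟩ hX1
      rw [LinearMap.mem_ker] at hX1
      rw [Submodule.mem_bot]
      exact Subtype.ext (hinj X (congrArg Subtype.val hX1))
    have hAsur : Function.Surjective A := LinearMap.injective_iff_surjective.1 hAinj
    refine rk1_of_refl hbr hirr hV h2 hn (fun X hX => ?_) hr h3
    obtain ⟨⟨Y, hY⟩, hYX⟩ := hAsur ⟨X, hX⟩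
    have h4 : s * Y * s' = X := congrArg Subtype.val hYX
    have h5 : s' * X * s = Y := by
      rw [← h4]
      calc s' * (s * Y * s') * s = (s' * s) * Y * (s' * s) := by noncomm_ring
        _ = Y := by rw [h2, one_mul, mul_one]
    rw [h5]
    exact hY

end lin

section fac

variable {G a : ℕ} {Z : Matrix (Fin G) (Fin G) ℂ} {Z' : Matrix (Fin a) (Fin a) ℂ}
  {E : Matrix (Fin G ⊕ Fin G) (Fin a ⊕ Fin a) ℚ} {F : Matrix (Fin a ⊕ Fin a) (Fin G ⊕ Fin G) ℚ}
  {S : Set (Matrix (Fin G ⊕ Fin G) (Fin G ⊕ Fin G) ℂ)}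

/-- Elements of rank one in the presence of a pseudo-reflection. -/
theorem rk1T_pseudo (h : TD Z S) (hZ : PM Z) {M : Matrix (Fin G ⊕ Fin G) (Fin G ⊕ Fin G) ℚ}
    (k : CG Z M) (hsep : SepN fun s => pd Z (VE M s)) (hf : Fac Z Z' E F) (h' : PM Z')
    {U : Submodule ℂ (Fin a ⊕ Fin a → ℂ)} (hU : IrS (LZ Z') U) (hn : 2 ≤ finrank ℂ U)
    {s : End ℂ U} (hs : ∀ u, s u = 0 → u = 0) (hr : rk (s - 1) = 1)
    (hC : (∃ C : Matrix (Fin a ⊕ Fin a) (Fin a ⊕ Fin a) ℚ, CentM Z' C ∧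
      ∀ x : ℝ, aeval (x : ℂ) (minpoly ℚ C) ≠ 0) ∨ s * s ≠ 1)
    (hN : ∀ X ∈ resL (Y224.TS.LT (SF E F S)) U, ∀ Y : End ℂ U, Y * s = s * X →
      Y ∈ resL (Y224.TS.LT (SF E F S)) U) : Rk1T (SF E F S) U := by
  classical
  have hTD := tdF hf h hZ h'
  have hU' : IrS (Y224.TS.LT (SF E F S)) U := (hTD.irS h').2 hU
  let e : U ≃ₗ[ℂ] U := LinearEquiv.ofInjectiveEndo s (by
    rw [← LinearMap.ker_eq_bot, eq_bot_iff]
    intro u hu
    exact hs u hu)
  have he : ∀ u, e u = s u := fun u => rfl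
  let s' : End ℂ U := e.symm.toLinearMap
  have h1 : s * s' = 1 := LinearMap.ext fun u => e.apply_symm_apply u
  have h2 : s' * s = 1 := LinearMap.ext fun u => e.symm_apply_apply u
  have hbr : ∀ X ∈ resL (Y224.TS.LT (SF E F S)) U, ∀ Y ∈ resL (Y224.TS.LT (SF E F S)) U,
      X * Y - Y * X ∈ resL (Y224.TS.LT (SF E F S)) U :=
    resL_br (fun X hX Y hY => LT_br hX hY) U
  rcases rk1_of_pseudo hbr (fun W hW => res_irr hTD.sq hU' W fun X hX _ => hW X hX) hn h1 h2
    (fun X hX => hN X hX _ (by rw [mul_assoc, h2, mul_one])) hr with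
      ⟨x, hx, hx1⟩ | ⟨h3, T, μ, hT1, hT2⟩
  · exact rk1T_of_rk hTD h' hU hn hx hx1
  · exfalso
    obtain ⟨C, hC, hreal⟩ := hC.resolve_right (fun h4 => h4 h3)
    obtain ⟨z, hz⟩ := cent_scalar h' hC hU
    have h3 := form_real h hZ k hsep hf h' hU hn T hT1
      (fun X => if hX : ∀ u ∈ U, X *ᵥ u ∈ U then μ (resM X U hX) else 0)
      (fun X hX x y x' y' hx' hy' => by
        have hXU : ∀ u ∈ U, X *ᵥ u ∈ U := hU'.2.1 X hX
        have h4 := hT2 (resM X U hXU) ⟨X, hX, fun u => rfl⟩ x y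
        have h5 : resM X U hXU x = x' := Subtype.ext hx'.symm
        have h6 : resM X U hXU y = y' := Subtype.ext hy'.symm
        rw [h5, h6] at h4
        rw [dif_pos hXU]
        exact h4) hC hz
    obtain ⟨u0, hu0, hu00⟩ := Submodule.exists_mem_ne_zero_of_ne_bot hU.1
    obtain ⟨r, hr⟩ := Complex.conj_eq_iff_real.1 h3
    apply hreal r
    have h4 := aeval_eig (hz u0 hu0) (minpoly ℚ C)
    rw [minpoly.aeval] at h4
    have h5 : qm (0 : Matrix (Fin a ⊕ Fin a) (Fin a ⊕ Fin a) ℚ) = 0 := by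
      ext i j
      simp [qm]
    rw [h5, zero_mulVec] at h4
    rw [← hr]
    exact (smul_eq_zero.1 h4.symm).resolve_right hu00

end fac

theorem TypeFour.cm {g : ℕ} {Z : Matrix (Fin g) (Fin g) ℂ} (h : PM Z) (k : TypeFour (AVZ h)) :
    ∃ C : Matrix (Fin g ⊕ Fin g) (Fin g ⊕ Fin g) ℚ, CentM Z C ∧
      ∀ x : ℝ, aeval (x : ℂ) (minpoly ℚ C) ≠ 0 := by
  obtain ⟨z, h1, h2, h3⟩ := k
  let e : Matrix (Fin g ⊕ Fin g) (Fin g ⊕ Fin g) ℚ ≃ₐ[ℚ] Module.End ℚ (Fin g ⊕ Fin g → ℚ) :=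
    Matrix.toLinAlgEquiv'
  have he : ∀ R, e R = Matrix.toLin' R := fun R => rfl
  have hez : e (LinearMap.toMatrix' z) = z := Matrix.toLin'_toMatrix' z
  refine ⟨LinearMap.toMatrix' z, ⟨(hom_iff' h z).1 h1, fun R hR => ?_⟩, fun x => ?_⟩
  · have h4 := h2 (e R) ((hom_iff h R).2 hR)
    apply e.injective
    rw [map_mul, map_mul, hez]
    exact h4.symm
  · rw [minpoly_mat]
    exact h3 x

section gal

variable {K : Type} [Field K] [CharZero K] [Algebra K ℂ] {Γ : Type} [Group Γ] {X : AV}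
  {ρ : Representation K Γ (K ⊗[ℚ] X.H)} {χ : Γ →* K} {G : ℕ} {Z : Matrix (Fin G) (Fin G) ℂ}
  {b : Basis (Fin G ⊕ Fin G) ℚ X.H} {a : ℕ} {Z' : Matrix (Fin a) (Fin a) ℂ}
  {E : Matrix (Fin G ⊕ Fin G) (Fin a ⊕ Fin a) ℚ} {F : Matrix (Fin a ⊕ Fin a) (Fin G ⊕ Fin G) ℚ}

theorem map_VS (h' : PM Z') (f : Module.End ℚ (AVZ h').H) (s : ℂ) :
    (VS K (AVZ h') f s).map (eY K (bs a)).toLinearMap = VE (LinearMap.toMatrix' f) s := by
  ext x
  rw [Submodule.mem_map]
  constructor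
  · rintro ⟨w, hw, rfl⟩
    exact (mem_VS h').1 hw
  · intro hx
    refine ⟨(eY K (bs a)).symm x, (mem_VS h').2 ?_, ?_⟩
    · rwa [LinearEquiv.apply_symm_apply]
    · exact (eY K (bs a)).apply_symm_apply x

/-- The new class. -/
theorem GalMultTwo.cls (h' : PM Z') (hZ : PM Z)
    (hC : Cht (X.per.comp b.equivFun.symm.toLinearMap.toAddMonoidHom) (JR Z))
    (hT : TD Z (SH X.per ρ χ b)) {M : Matrix (Fin G ⊕ Fin G) (Fin G ⊕ Fin G) ℚ}
    (kM : CG Z M) (hsep : SepN fun s => pd Z (VE M s)) (hf : Fac Z Z' E F) (hs : IsSimpleAV Z')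
    (ha : 0 < a) (hi : IsHom (AVZ h') X (inc h' b E)) (k : GalMultTwo X ρ (AVZ h'))
    {U : Submodule ℂ (Fin a ⊕ Fin a → ℂ)} (hU : IrS (LZ Z') U) (hn : 2 ≤ finrank ℂ U) :
    Rk1T (SF E F (SH X.per ρ χ b)) U := by
  obtain ⟨f, k, hγ⟩ := k
  obtain ⟨s0, T, hs0, hne, hT1, hT2, hTU⟩ := (k.mf h').proj h' hs ha hU
  have hTD := tdF hf hT hZ h'
  refine Rk1T.of_map hTD h' hU hT1 hT2 ?_
  have hn' : 2 ≤ finrank ℂ (VE (LinearMap.toMatrix' f) s0) := by
    rw [← hTU, finrank_map_of_inj hT2]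
    exact hn
  rw [hTU]
  have hIr := (k.mf h').irr h' hs hne
  have hst : ∀ γ' : Γ, (∀ a : X.H →ₗ[ℚ] X.H, Pool.Agent.Y90.St.IsHom X.per X.per a → ∀ v,
      ρ γ' (a.baseChange K v) = a.baseChange K (ρ γ' v)) →
      ∀ u ∈ VE (LinearMap.toMatrix' f) s0, Rf b E F ρ γ' *ᵥ u ∈ VE (LinearMap.toMatrix' f) s0 := by
    intro γ' hγ' u hu
    rw [mem_VE] at hu ⊢
    rw [mulVec_mulVec, Rf_comm hC hf hγ' (k.mf h').comm, ← mulVec_mulVec, hu, mulVec_smul]
  rcases hγ s0 (by rw [← minpoly_mat]; exact hs0) with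
    ⟨s, m, γ, t, t', ⟨hp1, hp2⟩, h4, hA, c, hc⟩ |
      ⟨γ, t, hA, n, w, α, A, iA, v, c, c', h1, h3, h4, h5, h6, h7⟩
  · -- pseudo-reflections
    set U1 := VE (LinearMap.toMatrix' f) s0 with hU1
    set e := eY K (bs a) with he
    have hmem : ∀ v, v ∈ VS K (AVZ h') f s0 ↔ e v ∈ U1 := fun v => mem_VS h'
    have hmem' : ∀ u, u ∈ U1 → e.symm u ∈ VS K (AVZ h') f s0 := fun u hu => by
      rw [hmem, e.apply_symm_apply]
      exact hu
    -- the operator in coordinates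
    have hst1 : ∀ u ∈ U1, e (s (e.symm u)) ∈ U1 := fun u hu => by
      rw [← hmem]
      exact (hp1 _ (hmem' u hu)).1
    let s1 : End ℂ U1 := ((e.toLinearMap.comp s).comp e.symm.toLinearMap).restrict hst1
    have hs1 : ∀ u : U1, ((s1 u : U1) : Fin a ⊕ Fin a → ℂ) = e (s (e.symm (u : _))) := fun u => rfl
    have hs1' : ∀ u : U1, s (e.symm (u : Fin a ⊕ Fin a → ℂ)) = e.symm (s1 u : U1) := fun u => by
      rw [hs1, e.symm_apply_apply]
    refine rk1T_pseudo hT hZ kM hsep hf h' hIr hn' (s := s1) (fun u hu => ?_) ?_ ?_ ?_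
    · have h5 := (hp1 _ (hmem' u u.2)).2 (by
        rw [hs1', hu]
        exact map_zero _)
      exact Subtype.ext ((LinearEquiv.map_eq_zero_iff _).1 h5)
    · rw [← hp2]
      have h8 : (LinearMap.range (s1 - 1)).map U1.subtype =
          ((VS K (AVZ h') f s0).map (s - 1)).map e.toLinearMap := by
        ext x
        simp only [Submodule.mem_map]
        constructor
        · rintro ⟨_, ⟨u, rfl⟩, rfl⟩
          refine ⟨_, ⟨e.symm u, hmem' u u.2, rfl⟩, ?_⟩
          change e (s (e.symm u) - e.symm u) = ((s1 u - u : U1) : Fin a ⊕ Fin a → ℂ)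
          rw [map_sub, e.apply_symm_apply, Submodule.coe_sub, hs1]
        · rintro ⟨_, ⟨w, hw, rfl⟩, rfl⟩
          refine ⟨_, ⟨⟨e w, (hmem w).1 hw⟩, rfl⟩, ?_⟩
          change ((s1 ⟨e w, _⟩ - ⟨e w, _⟩ : U1) : Fin a ⊕ Fin a → ℂ) = e (s w - w)
          rw [map_sub, Submodule.coe_sub, hs1, e.symm_apply_apply]
      unfold rk
      rw [← Submodule.finrank_map_subtype_eq, h8]
      exact LinearEquiv.finrank_map_eq e _
    · rcases h4 with h4 | ⟨w, hw, hw1⟩
      · exact Or.inl h4.cm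
      · right
        intro h5
        apply hw1
        have h6 := congrArg Subtype.val (LinearMap.congr_fun h5 ⟨e w, (hmem w).1 hw⟩)
        change ((s1 (s1 ⟨e w, _⟩) : U1) : Fin a ⊕ Fin a → ℂ) = e w at h6
        rw [hs1, hs1, e.symm_apply_apply, e.symm_apply_apply] at h6
        exact e.injective h6
    · rintro Y ⟨Y', hY', hYY⟩ R hR
      -- the elements of the Galois group
      have hmt : ∀ i, mt (bs a) ((t i).baseChange ℂ) = Rf b E F ρ (γ i) := fun i =>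
        acts_mat h' hf (hA i).1 hi
      have hmt' : ∀ i, mt (bs a) ((t' i).baseChange ℂ) = Rf b E F ρ (γ i)⁻¹ := fun i =>
        acts_mat h' hf (hA i).2 hi
      have hU1' : Stab (Y224.TS.LT (SF E F (SH X.per ρ χ b))) U1 := (hTD.stab h').2 hIr.2.1
      refine ⟨∑ i, c i • (Rf b E F ρ (γ i) * Y' * Rf b E F ρ (γ i)⁻¹),
        Submodule.sum_mem _ fun i _ => Submodule.smul_mem _ _
          (Rf_gen hC hf (hA i).1.1 hT hY'), fun u => ?_⟩
      -- surjectivity of the operator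
      have hsinj : Function.Injective s1 := by
        rw [← LinearMap.ker_eq_bot, eq_bot_iff]
        intro u hu
        have h5 := (hp1 _ (hmem' u u.2)).2 (by
          rw [hs1', LinearMap.mem_ker.1 hu]
          exact map_zero _)
        rw [Submodule.mem_bot]
        exact Subtype.ext ((LinearEquiv.map_eq_zero_iff _).1 h5)
      obtain ⟨u1, rfl⟩ := LinearMap.injective_iff_surjective.1 hsinj u
      have h5 : R (s1 u1) = s1 (Y u1) := LinearMap.congr_fun hR u1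
      rw [h5, hs1, hYY]
      have h6 := hc ((e.symm.toLinearMap.comp (mulVecLin Y')).comp e.toLinearMap) (fun w hw => by
        rw [hmem] at hw ⊢
        change e (e.symm (Y' *ᵥ e w)) ∈ U1
        rw [e.apply_symm_apply]
        exact hU1' _ hY' _ hw) (e.symm u1) (hmem' _ u1.2)
      have h7 : ((e.symm.toLinearMap.comp (mulVecLin Y')).comp e.toLinearMap) (e.symm u1) =
          e.symm (Y' *ᵥ u1) := by
        change e.symm (Y' *ᵥ e (e.symm u1)) = _
        rw [e.apply_symm_apply]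
      rw [h7] at h6
      rw [h6, map_sum, sum_mulVec]
      refine Finset.sum_congr rfl fun i _ => ?_
      rw [map_smul, smul_mulVec, ← hmt, ← hmt', mul_assoc, ← mulVec_mulVec, ← mulVec_mulVec,
        hs1]
      congr 1
      have h8 : ∀ (q : Module.End ℂ (ℂ ⊗[K] (K ⊗[ℚ] (AVZ h').H))) (x), mt (bs a) q *ᵥ e x =
          e (q x) := fun q x => mt_mulVec _ _ _
      rw [h8]
      change e ((t i).baseChange ℂ (e.symm (Y' *ᵥ e ((t' i).baseChange ℂ (s (e.symm u1)))))) = _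
      rw [← h8, e.apply_symm_apply]
  · have hg : ∀ a : X.H →ₗ[ℚ] X.H, Pool.Agent.Y90.St.IsHom X.per X.per a → ∀ v,
        ρ γ (a.baseChange K v) = a.baseChange K (ρ γ v) := hA.1
    have hmt := acts_mat h' hf hA hi
    refine rk1T_slopes hTD h' hIr hn' (Rf_inv hC hf hg) (fun X hX => Rf_gen (X := X) hC hf hg hT hX)
      (hst γ hg) (hst γ⁻¹ (comm_inv hg)) (w.map (eVS h' f s0)) α v (fun i => ?_) h3
      h4 h5 h6 h7
    rw [Basis.map_apply, eVS_coe, ← hmt, mt_mulVec, h1, map_smul]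

end gal

end

end Pool.Agent.N183.U6
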