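import Mathlib
import Pool.Agent.N183.U5.Mt
import Pool.Agent.N183.U6.Cls

/-!
# Tate tensors are combinations of Hodge tensors: the new class
-/

set_option linter.unusedSectionVars false

namespace Pool.Agent.N183.U6

open Matrix Module Pool.Agent.W437.HC Pool.Agent.W437.HD Pool.Agent.W548.Odd
open Pool.Agent.H204R3.SP Pool.Agent.H204R3.GP Pool.Agent.Y90 Pool.Agent.Y224.TS TensorProduct
open Pool.Agent.Y224.TS.St (IsHodgeTate IsTateModule)
open Pool.Agent.W437.HP (cK cK_mul cK_one)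
open Pool.Agent.R915 (RealMax QuadMult HasCMult IsFactor Sys Unbalanced IsOfType EndQuad VE)
open Pool.Agent.N183.TS Pool.Agent.N183.U5

noncomputable section

variable {K : Type} [Field K] [CharZero K] [Algebra K ℂ] {Γ : Type} [Group Γ]

/-- The classes of simple factors. -/
def GoodTwo (X : AV) (ρ : Representation K Γ (K ⊗[ℚ] X.H)) (Y : AV) : Prop :=
  finrank ℚ Y.H ≤ 6 ∨ HasCMult Y ∨ QuadThree Y ∨ RealOdd Y ∨ CopMult Y ∨ GalMultTwo X ρ Y

/-- The data for the proof. -/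
theorem setup [Algebra.IsAlgebraic K ℂ] (X : AV) {E : X.H → X.H → ℚ}
    (hE : Pool.Agent.Y90.St.IsPolarization X.per E)
    {ρ : Representation K Γ (K ⊗[ℚ] X.H)} {χ : Γ →* K}
    (hX : ∀ Y, IsFactor Y X → GoodTwo X ρ Y) {n : ℂ → ℕ} (hn : IsCentreMult X n)
    (hs : IsSeparated n) (hρ : IsTateModule X.per E ρ χ) :
    ∃ (a : ℕ) (Z : Matrix (Fin a) (Fin a) ℂ) (_ : PM Z) (b : Basis (Fin a ⊕ Fin a) ℚ X.H)
      (M : Matrix (Fin a ⊕ Fin a) (Fin a ⊕ Fin a) ℚ),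
      Cht (X.per.comp b.equivFun.symm.toLinearMap.toAddMonoidHom) (JR Z) ∧
        TD Z (SH X.per ρ χ b) ∧ Gd Z (SH X.per ρ χ b) ∧ CG Z M ∧
          ∀ s, pd Z (VE M s) = n s := by
  classical
  obtain ⟨a, Z, hZ, b, hC, hb⟩ := exists_ppav' (AV.isAV X) hE
  have hTD : TD Z (SH X.per ρ χ b) := td_of b hb hC hρ
  obtain ⟨M, hM, hMn⟩ := hn.cg hZ hC
  have hfn : (fun s => pd Z (VE M s)) = n := funext hMn
  have hsep : SepN fun s => pd Z (VE M s) := by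
    rw [hfn]
    exact hs.sep
  refine ⟨a, Z, hZ, b, M, hC, hTD, gd_of hTD hZ ?_ hM hsep, hM, hMn⟩
  intro a' Z' E' F' hfac h' hsim ha U hU hn
  have hs := R915.simple_of a' h' hsim ha
  obtain ⟨Ψ₁, h₁⟩ := h'.cht.hom hC (R := E') (by
    rw [DJ_JR, DJ_JR]
    exact hfac.de.symm)
  have hi : IsHom (AVZ h') X (inc h' b E') := ⟨Ψ₁, fun v => h₁ v⟩
  have hfa : IsFactor (AVZ h') X := by
    refine ⟨hs, inc h' b E', hi, ?_⟩
    intro x y hxy
    have h2 : E' *ᵥ x = E' *ᵥ y := b.equivFun.symm.injective hxy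
    have h3 := congrArg (fun v => F' *ᵥ v) h2
    beta_reduce at h3
    rw [mulVec_mulVec, mulVec_mulVec, hfac.fe, one_mulVec, one_mulVec] at h3
    exact h3
  have hT' := tdF hfac hTD hZ h'
  rcases hX _ hfa with k | k | k | k | k | k
  · exact (cls_all h' hT' hs ha (Or.inl k) hU hn).1
  · exact (cls_all h' hT' hs ha (Or.inr (Or.inl k)) hU hn).1
  · exact (k.cls h' hT' hU hn).1
  · exact (cls_all h' hT' hs ha (Or.inr (Or.inr (Or.inr k))) hU hn).1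
  · exact k.cls h' hT' (R915.simple_AVZ h' hs) ha hU hn
  · exact k.cls h' hZ hC hTD hM hsep hfac (R915.simple_AVZ h' hs) ha hi hU hn

/-- **Tate tensors are combinations of Hodge tensors.** -/
theorem tate_tensor [Algebra.IsAlgebraic K ℂ] (X : AV)
    {E : X.H → X.H → ℚ} (hE : Pool.Agent.Y90.St.IsPolarization X.per E)
    {ρ : Representation K Γ (K ⊗[ℚ] X.H)} {χ : Γ →* K}
    (hX : ∀ Y, IsFactor Y X → GoodTwo X ρ Y) {n : ℂ → ℕ} (hn : IsCentreMult X n)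
    (hs : IsSeparated n) (hρ : IsTateModule X.per E ρ χ) {m : ℕ}
    (φ : MultilinearMap K (fun _ : Fin m × Fin 2 => K ⊗[ℚ] X.H) K)
    (hφ : ∃ Δ : Subgroup Γ, Δ.FiniteIndex ∧ ∀ g ∈ Δ, ∀ v : Fin m × Fin 2 → K ⊗[ℚ] X.H,
      φ (fun k => ρ g (v k)) = χ g ^ m * φ v) :
    ∃ (n : ℕ) (c : Fin n → K) (f : Fin n → MultilinearMap ℚ (fun _ : Fin m × Fin 2 => X.H) ℚ),
      (∀ j, IsHodgeTensor X.per (f j)) ∧
        ∀ v : Fin m × Fin 2 → X.H, φ (fun k => (1 : K) ⊗ₜ[ℚ] v k) =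
          ∑ j, c j * ((f j v : ℚ) : K) := by
  classical
  obtain ⟨a, Z, hZ, b, M, hC, hTD, hGd, -, -⟩ := U6.setup X hE hX hn hs hρ
  obtain ⟨Ψ₂, h₂⟩ := hC.hom hZ.cht (R := 1) (by rw [cK_one, Matrix.one_mul, Matrix.mul_one])
  have e₂ : ∀ v, Ψ₂ (X.per v) = perOne Z (b.equivFun v) := fun v => by
    have h3 := h₂ (b.equivFun v)
    have h4 : (X.per.comp b.equivFun.symm.toLinearMap.toAddMonoidHom) (b.equivFun v) = X.per v := by
      change X.per (b.equivFun.symm (b.equivFun v)) = X.per v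
      rw [LinearEquiv.symm_apply_apply]
    rwa [h4, one_mulVec] at h3
  have h0 := kill_LZ' hTD hZ hGd (FC b φ) (FC_kills b φ hφ)
  have h1 := expand_ten (F := FC b φ) hZ.cht gal_LZ (DJ_JR ▸ DZ_mem)
    (fun X hX => act_of_kills (h0 X hX))
  have h2 : (fun v : Fin m × Fin 2 → Fin a ⊕ Fin a → ℚ => FC b φ (fun k => cv (v k))) =
      fun v => algebraMap K ℂ (φ (fun k => (1 : K) ⊗ₜ[ℚ] b.equivFun.symm (v k))) := by
    funext v
    exact FC_rat b φ v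
  rw [h2] at h1
  -- descent
  let S : Set ((Fin m × Fin 2 → Fin a ⊕ Fin a → ℚ) → K) :=
    {s | ∃ r : MultilinearMap ℚ (fun _ : Fin m × Fin 2 => Fin a ⊕ Fin a → ℚ) ℚ,
      IsHodgeTensor (perOne Z) r ∧ s = fun v => ((r v : ℚ) : K)}
  have h3 : (fun v : Fin m × Fin 2 → Fin a ⊕ Fin a → ℚ =>
      φ (fun k => (1 : K) ⊗ₜ[ℚ] b.equivFun.symm (v k))) ∈ Submodule.span K S := by
    refine span_descent_k (Ω := ℂ) S _ ?_
    refine Submodule.span_mono ?_ h1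
    rintro g ⟨r, hr, rfl⟩
    refine ⟨_, ⟨r, hr, rfl⟩, ?_⟩
    funext v
    rw [map_ratCast]
  obtain ⟨n, c, s, hs'⟩ := Submodule.mem_span_set'.1 h3
  choose r hr hr' using fun j => (s j).2
  refine ⟨n, c, fun j => (r j).compLinearMap fun _ => b.equivFun.toLinearMap,
    fun j => isHodgeTensor_comp _ Ψ₂ e₂ (hr j), fun v => ?_⟩
  have h4 := congrFun hs' (fun k => b.equivFun (v k))
  beta_reduce at h4
  have h5 : (fun k => (1 : K) ⊗ₜ[ℚ] b.equivFun.symm (b.equivFun (v k))) =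
      fun k => (1 : K) ⊗ₜ[ℚ] v k := by
    funext k
    rw [LinearEquiv.symm_apply_apply]
  rw [h5] at h4
  rw [← h4, Finset.sum_apply]
  refine Finset.sum_congr rfl fun j _ => ?_
  rw [Pi.smul_apply, smul_eq_mul, hr' j]
  rfl

end

end Pool.Agent.N183.U6
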