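import Mathlib

/-!
# Multiplicity functions of superelliptic type
-/

namespace Pool.Agent.N183.U6

/-- The function `N` is of *superelliptic type* on the conjugates of `s`: for some prime power `q`,
some primitive roots of unity `ζ` and `ω` of order `q`, some number `n ≥ 4` prime to `q` and some
number `k`, the multiplicity of `τ s` is `k` times the integral part of `n i / q` if `τ ζ = ω ^ i`,
`0 ≤ i < q`. This is so for the `k`-th power of the new part of the Jacobian of the curve
`y ^ q = f(x)`, where `f` is a separable polynomial of degree `n` (and `ζ` is in the field generated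
by `s`). -/
def IsSuper (N : ℂ → ℕ) (s : ℂ) : Prop :=
  ∃ (q n k : ℕ) (ζ ω : ℂ), IsPrimePow q ∧ 4 ≤ n ∧ n.Coprime q ∧ IsPrimitiveRoot ζ q ∧
    IsPrimitiveRoot ω q ∧ ∀ (τ : ℂ ≃+* ℂ) (i : ℕ), i < q → τ ζ = ω ^ i →
      N (τ s) = k * (n * i / q)

/-- Each homomorphism which occurs in the tangent space is totally real or of superelliptic type.
The orders `q` and the degrees `n` may be different for different homomorphisms. -/
def AllSuper (N : ℂ → ℕ) : Prop :=
  ∀ s : ℂ, N s ≠ 0 → (∀ τ : ℂ ≃+* ℂ, starRingEnd ℂ (τ s) = τ s) ∨ IsSuper N s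

end Pool.Agent.N183.U6
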