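import Mathlib
import Pool.Agent.N183.U5.Cpr
import Pool.Agent.N183.U6.Ari
import Pool.Agent.N183.U6.StmS

/-!
# Multiplicity functions of superelliptic type are separated
-/

set_option linter.unusedSectionVars false

namespace Pool.Agent.N183.U6

open Pool.Agent.N183.U5

/-- Complex conjugation. -/
noncomputable def cj : ℂ ≃+* ℂ := Complex.conjAe.toRingEquiv

theorem cj_apply (z : ℂ) : cj z = starRingEnd ℂ z := rfl

/-- The action of an automorphism on roots of unity. -/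
theorem aut_pow {Q : ℕ} (hQ : Q ≠ 0) (τ : ℂ ≃+* ℂ) :
    ∃ x : ℕ, x.Coprime Q ∧ ∀ z : ℂ, z ^ Q = 1 → τ z = z ^ x := by
  have : NeZero Q := ⟨hQ⟩
  have hω := Complex.isPrimitiveRoot_exp Q hQ
  set ω := Complex.exp (2 * Real.pi * Complex.I / (Q : ℂ))
  obtain ⟨x, -, hx, hx2⟩ := hω.isPrimitiveRoot_iff.1 (hω.map_of_injective τ.injective)
  refine ⟨x, hx, fun z hz => ?_⟩
  obtain ⟨i, -, rfl⟩ := hω.eq_pow_of_pow_eq_one hz
  rw [map_pow, ← hx2, ← pow_mul, ← pow_mul, mul_comm]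

theorem pow_aut {Q : ℕ} (hQ : Q ≠ 0) {x : ℕ} (hx : x.Coprime Q) :
    ∃ τ : ℂ ≃+* ℂ, ∀ z : ℂ, z ^ Q = 1 → τ z = z ^ x := by
  have : NeZero Q := ⟨hQ⟩
  have hω := Complex.isPrimitiveRoot_exp Q hQ
  set ω := Complex.exp (2 * Real.pi * Complex.I / (Q : ℂ))
  obtain ⟨τ, hτ⟩ := exists_cyc hω (hω.pow_of_coprime x hx)
  refine ⟨τ, fun z hz => ?_⟩
  obtain ⟨i, -, rfl⟩ := hω.eq_pow_of_pow_eq_one hz
  rw [map_pow, hτ, ← pow_mul, ← pow_mul, mul_comm]

/-- The data of a homomorphism of superelliptic type. -/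
structure Dat (N : ℂ → ℕ) (s : ℂ) (q n k : ℕ) [NeZero q] (a : (ZMod q)ˣ) : Prop where
  pp : IsPrimePow q
  n4 : 4 ≤ n
  nq : n.Coprime q
  f : ∀ (τ : ℂ ≃+* ℂ) (x : ℕ), (∀ z : ℂ, z ^ q = 1 → τ z = z ^ x) →
    N (τ s) = k * Hq q n ((a : ZMod q) * x) ∧
      N (starRingEnd ℂ (τ s)) = k * Hq q n (-((a : ZMod q) * x))

theorem IsSuper.dat {N : ℂ → ℕ} {s : ℂ} (h : IsSuper N s) :
    ∃ (q n k : ℕ) (_ : NeZero q) (a : (ZMod q)ˣ), Dat N s q n k a := by
  obtain ⟨q, n, k, ζ, ω, h1, h2, h3, h4, h5, h6⟩ := h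
  have hq0 : NeZero q := ⟨h1.pos.ne'⟩
  obtain ⟨a, ha⟩ := pr_ex h5 h4
  refine ⟨q, n, k, hq0, a, h1, h2, h3, fun τ x hτ => ?_⟩
  have e1 : τ ζ = ω ^ ((a : ZMod q) * x).val := by
    rw [hτ ζ h4.pow_eq_one, ha, ← pow_mul]
    refine pow_eq_pow_of_modEq ?_ h5.pow_eq_one
    rw [ZMod.val_mul, ZMod.val_natCast]
    exact ((Nat.mod_modEq _ _).trans (Nat.ModEq.mul_left _ (Nat.mod_modEq _ _))).symm
  refine ⟨h6 τ _ (ZMod.val_lt _) e1, ?_⟩
  have e2 : (τ.trans cj) ζ = ω ^ (-((a : ZMod q) * x)).val := by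
    rw [RingEquiv.trans_apply, e1, cj_apply, pr_conj h5]
  exact h6 (τ.trans cj) _ (ZMod.val_lt _) e2

/-- Conjugates. -/
theorem IsSuper.of_conj {N : ℂ → ℕ} {s : ℂ} {σ : ℂ ≃+* ℂ} (h : IsSuper N (σ s)) : IsSuper N s := by
  obtain ⟨q, n, k, ζ, ω, h1, h2, h3, h4, h5, h6⟩ := h
  refine ⟨q, n, k, σ.symm ζ, ω, h1, h2, h3, h4.map_of_injective σ.symm.injective, h5,
    fun τ i hi hτ => ?_⟩
  have e1 := h6 (σ.symm.trans τ) i hi hτ
  rwa [RingEquiv.trans_apply, RingEquiv.symm_apply_apply] at e1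

/-- Proportionality in terms of the numbers. -/
theorem prop_iff {k k' h g h' g' n n' : ℕ} (hk : k ≠ 0) (hk' : k' ≠ 0) (h1 : h + g + 1 = n)
    (h2 : h' + g' + 1 = n') : (k * h * (k' * g') = k' * h' * (k * g)) ↔
      h * (n' - 1) = h' * (n - 1) := by
  have e1 : n' - 1 = h' + g' := by omega
  have e2 : n - 1 = h + g := by omega
  rw [e1, e2]
  have hkk : 0 < k * k' := Nat.mul_pos (Nat.pos_of_ne_zero hk) (Nat.pos_of_ne_zero hk')
  constructor
  · intro h3
    have h4 : (k * k') * (h * g') = (k * k') * (h' * g) := by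
      calc (k * k') * (h * g') = k * h * (k' * g') := by ring
        _ = k' * h' * (k * g) := h3
        _ = _ := by ring
    have h5 := Nat.eq_of_mul_eq_mul_left hkk h4
    rw [mul_add, mul_add, h5, mul_comm h h']
  · intro h3
    have h5 : h * g' = h' * g := by
      rw [mul_add, mul_add, mul_comm h h'] at h3
      exact Nat.add_left_cancel h3
    calc k * h * (k' * g') = (k * k') * (h * g') := by ring
      _ = (k * k') * (h' * g) := by rw [h5]
      _ = _ := by ring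

/-- **Separation.** -/
theorem AllSuper.sep {N : ℂ → ℕ} (h : AllSuper N) : IsSeparated N := by
  classical
  intro s s' hs hs'
  let R : ℂ → Prop := fun s => ∀ τ : ℂ ≃+* ℂ, starRingEnd ℂ (τ s) = τ s
  have hcase : ∀ s (σ : ℂ ≃+* ℂ), N (σ s) ≠ 0 → R s ∨ IsSuper N s := by
    intro s σ h3
    rcases h _ h3 with h4 | h4
    · left
      intro τ
      have h5 := h4 (σ.symm.trans τ)
      rwa [RingEquiv.trans_apply, RingEquiv.symm_apply_apply] at h5
    · exact Or.inr h4.of_conj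
  have hcase' : ∀ s (σ : ℂ ≃+* ℂ), N (starRingEnd ℂ (σ s)) ≠ 0 → R s ∨ IsSuper N s :=
    fun s σ h3 => hcase s (σ.trans cj) h3
  have e1 : R s ∨ IsSuper N s := by
    obtain ⟨τ, h3, -⟩ := hs
    exact hcase s τ h3
  have e2 : R s' ∨ IsSuper N s' := by
    obtain ⟨τ, h3⟩ := hs'
    by_contra h4
    apply h3
    have h5 : N (τ s') = 0 := by
      by_contra h5
      exact h4 (hcase s' τ h5)
    have h6 : N (starRingEnd ℂ (τ s')) = 0 := by
      by_contra h6
      exact h4 (hcase' s' τ h6)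
    rw [h5, h6, zero_mul, mul_zero]
  rcases e1 with hR | hS
  · obtain ⟨τ, h4⟩ := hs'
    refine ⟨τ, h4, Or.inl ?_⟩
    have h5 := hR τ
    have h6 : N (τ s) ≠ 0 := by
      intro h6
      apply h4
      rw [h5, h6, zero_mul, mul_zero]
    exact ⟨h6, by rwa [h5]⟩
  rcases e2 with hR' | hS'
  · obtain ⟨τ, h4⟩ := hs'
    refine ⟨τ, h4, Or.inr ?_⟩
    have h5 := hR' τ
    have h6 : N (τ s') ≠ 0 := by
      intro h6
      apply h4
      rw [h5, h6, zero_mul, mul_zero]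
    exact ⟨h6, by rwa [h5]⟩
  obtain ⟨q, n, k, iq, a, d⟩ := hS.dat
  obtain ⟨q', n', k', iq', a', d'⟩ := hS'.dat
  have hq1 := d.pp.one_lt
  have hq1' := d'.pp.one_lt
  have : Fact (1 < q) := ⟨hq1⟩
  have : Fact (1 < q') := ⟨hq1'⟩
  have hQ : q * q' ≠ 0 := mul_ne_zero (NeZero.ne q) (NeZero.ne q')
  -- the numbers for an automorphism
  have hτ1 : ∀ (τ : ℂ ≃+* ℂ) (x : ℕ), (∀ z : ℂ, z ^ (q * q') = 1 → τ z = z ^ x) →
      ∀ z : ℂ, z ^ q = 1 → τ z = z ^ x := fun τ x hx z hz => hx z (by rw [pow_mul, hz, one_pow])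
  have hτ2 : ∀ (τ : ℂ ≃+* ℂ) (x : ℕ), (∀ z : ℂ, z ^ (q * q') = 1 → τ z = z ^ x) →
      ∀ z : ℂ, z ^ q' = 1 → τ z = z ^ x := fun τ x hx z hz =>
    hx z (by rw [mul_comm, pow_mul, hz, one_pow])
  have hu : ∀ x : ℕ, x.Coprime (q * q') → ∃ u : (ZMod q)ˣ, (u : ZMod q) = (a : ZMod q) * x := by
    intro x hx
    refine ⟨a * ZMod.unitOfCoprime x (Nat.Coprime.coprime_mul_right_right hx), ?_⟩
    rw [Units.val_mul, ZMod.coe_unitOfCoprime]
  have hu' : ∀ x : ℕ, x.Coprime (q * q') →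
      ∃ u : (ZMod q')ˣ, (u : ZMod q') = (a' : ZMod q') * x := by
    intro x hx
    refine ⟨a' * ZMod.unitOfCoprime x (Nat.Coprime.coprime_mul_left_right hx), ?_⟩
    rw [Units.val_mul, ZMod.coe_unitOfCoprime]
  obtain ⟨τ0, hm1, hm2⟩ := hs
  obtain ⟨x0, hx0, hτ0⟩ := aut_pow hQ τ0
  obtain ⟨f1, f2⟩ := d.f τ0 x0 (hτ1 _ _ hτ0)
  rw [f1] at hm1
  rw [f2] at hm2
  have hk : k ≠ 0 := left_ne_zero_of_mul hm1
  have hM0 : Mq q n ((a : ZMod q) * x0) :=
    ⟨right_ne_zero_of_mul hm1, right_ne_zero_of_mul hm2⟩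
  obtain ⟨τ1, hn1⟩ := hs'
  obtain ⟨x1, hx1, hτ1'⟩ := aut_pow hQ τ1
  obtain ⟨g1, g2⟩ := d.f τ1 x1 (hτ1 _ _ hτ1')
  obtain ⟨g3, g4⟩ := d'.f τ1 x1 (hτ2 _ _ hτ1')
  rw [g1, g2, g3, g4] at hn1
  have hk' : k' ≠ 0 := by
    rintro rfl
    apply hn1
    rw [zero_mul, zero_mul, mul_zero, zero_mul]
  -- the statement in terms of numbers
  have hsum : ∀ x : ℕ, x.Coprime (q * q') →
      Hq q n ((a : ZMod q) * x) + Hq q n (-((a : ZMod q) * x)) + 1 = n := by
    intro x hx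
    obtain ⟨u, hu⟩ := hu x hx
    rw [← hu]
    exact Hq_neg hq1 d.nq u
  have hsum' : ∀ x : ℕ, x.Coprime (q * q') →
      Hq q' n' ((a' : ZMod q') * x) + Hq q' n' (-((a' : ZMod q') * x)) + 1 = n' := by
    intro x hx
    obtain ⟨u, hu⟩ := hu' x hx
    rw [← hu]
    exact Hq_neg hq1' d'.nq u
  have hn1' : ¬(Hq q n ((a : ZMod q) * x1) * (n' - 1) = Hq q' n' ((a' : ZMod q') * x1) * (n - 1)) :=
    fun h3 => hn1 ((prop_iff hk hk' (hsum x1 hx1) (hsum' x1 hx1)).2 h3)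
  by_contra hcon
  push Not at hcon
  have key : ∀ x : ℕ, x.Coprime (q * q') → Mq q n ((a : ZMod q) * x) ∨ Mq q' n' ((a' : ZMod q') * x) →
      Hq q n ((a : ZMod q) * x) * (n' - 1) = Hq q' n' ((a' : ZMod q') * x) * (n - 1) := by
    intro x hx hM
    obtain ⟨τ, hτ⟩ := pow_aut hQ hx
    obtain ⟨w1, w2⟩ := d.f τ x (hτ1 _ _ hτ)
    obtain ⟨w3, w4⟩ := d'.f τ x (hτ2 _ _ hτ)
    by_contra h3
    have h4 := hcon τ (by
      rw [w1, w2, w3, w4]
      exact fun h4 => h3 ((prop_iff hk hk' (hsum x hx) (hsum' x hx)).1 h4))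
    rcases hM with hM | hM
    · exact h4.1 ⟨by rw [w1]; exact mul_ne_zero hk hM.1, by rw [w2]; exact mul_ne_zero hk hM.2⟩
    · exact h4.2 ⟨by rw [w3]; exact mul_ne_zero hk' hM.1,
        by rw [w4]; exact mul_ne_zero hk' hM.2⟩
  -- large degrees
  rcases Nat.lt_or_ge q n with hlt | hge
  · apply hn1'
    obtain ⟨u, hu⟩ := hu x1 hx1
    exact key x1 hx1 (Or.inl (by rw [← hu]; exact Mq_of_lt d.pp hlt u))
  rcases Nat.lt_or_ge q' n' with hlt' | hge'
  · apply hn1'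
    obtain ⟨u, hu⟩ := hu' x1 hx1
    exact key x1 hx1 (Or.inr (by rw [← hu]; exact Mq_of_lt d'.pp hlt' u))
  have hlt' : n' < q' := by
    rcases eq_or_ne n' q' with h1 | h1
    · have h2 := d'.nq
      rw [h1, Nat.coprime_self] at h2
      omega
    · omega
  by_cases hcop : q.Coprime q'
  · -- different primes
    obtain ⟨y, hy⟩ : ∃ y : ℕ, (y : ZMod q') = ((a'⁻¹ : (ZMod q')ˣ) : ZMod q') ∧ y.Coprime q' :=
      ⟨((a'⁻¹ : (ZMod q')ˣ) : ZMod q').val, ZMod.natCast_zmod_val _, ZMod.val_coe_unit_coprime _⟩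
    obtain ⟨x, h1, h2⟩ := Nat.chineseRemainder hcop x0 y
    have hxq : x.Coprime q := by
      have h3 : x0.Coprime q := Nat.Coprime.coprime_mul_right_right hx0
      unfold Nat.Coprime at h3 ⊢
      rw [h1.gcd_eq, h3]
    have hxq' : x.Coprime q' := by
      have h3 := hy.2
      unfold Nat.Coprime at h3 ⊢
      rw [h2.gcd_eq, h3]
    have e1 : (x : ZMod q) = x0 := (ZMod.natCast_eq_natCast_iff _ _ _).2 h1
    have e2 : (a' : ZMod q') * x = 1 := by
      have h3 : (x : ZMod q') = y := (ZMod.natCast_eq_natCast_iff _ _ _).2 h2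
      rw [h3, hy.1, ← Units.val_mul, mul_inv_cancel, Units.val_one]
    have e3 := key x (Nat.Coprime.mul_right hxq hxq') (Or.inl (by rw [e1]; exact hM0))
    have e4 : Hq q' n' (1 : ZMod q') = 0 := by
      unfold Hq
      rw [ZMod.val_one, mul_one]
      exact Nat.div_eq_of_lt hlt'
    rw [e1, e2, e4, zero_mul] at e3
    have h4 := d'.n4
    rcases mul_eq_zero.1 e3 with h5 | h5
    · exact hM0.1 h5
    · omega
  · -- the same prime
    obtain ⟨p, i, hp, hi, hpi⟩ := d.pp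
    obtain ⟨p', j, hp', hj, hpj⟩ := d'.pp
    have hpp : p = p' := by
      by_contra hne
      apply hcop
      rw [← hpi, ← hpj]
      exact Nat.Coprime.pow _ _ ((Nat.coprime_primes hp.nat_prime hp'.nat_prime).2 hne)
    subst hpp
    have hcopx : ∀ x : ℕ, x.Coprime q ↔ x.Coprime q' := by
      intro x
      rw [← hpi, ← hpj, Nat.coprime_pow_right_iff hi, Nat.coprime_pow_right_iff hj]
    rcases Nat.lt_trichotomy i j with hij | hij | hij
    · -- the first order divides the second one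
      have hdvd : q ∣ q' := by
        rw [← hpi, ← hpj]
        exact pow_dvd_pow p hij.le
      have hne : q ≠ q' := by
        rw [← hpi, ← hpj]
        exact fun h3 => hij.ne (Nat.pow_right_injective hp.nat_prime.two_le h3)
      let c : (ZMod q)ˣ := a * (Units.map (ZMod.castHom hdvd (ZMod q)).toMonoidHom a')⁻¹
      have hc : ∀ x : ℕ, (c : ZMod q) * ZMod.castHom hdvd (ZMod q) ((a' : ZMod q') * x) =
          (a : ZMod q) * x := by
        intro x
        rw [map_mul, map_natCast, ← mul_assoc]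
        congr 1
        have h3 : ZMod.castHom hdvd (ZMod q) (a' : ZMod q') =
          ((Units.map (ZMod.castHom hdvd (ZMod q)).toMonoidHom a' : (ZMod q)ˣ) : ZMod q) := rfl
        rw [h3, ← Units.val_mul]
        congr 1
        exact inv_mul_cancel_right _ _
      have h3 := lem_div hq1 hdvd hne d.n4 d.nq d'.n4 d'.nq (fun x hx => (hcopx x).1 hx) c
        (fun u hM => by
          obtain ⟨x, hx, hxu⟩ : ∃ x : ℕ, x.Coprime (q * q') ∧ (u : ZMod q') = (a' : ZMod q') * x := by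
            refine ⟨((a'⁻¹ * u : (ZMod q')ˣ) : ZMod q').val, ?_, ?_⟩
            · have h4 := ZMod.val_coe_unit_coprime (a'⁻¹ * u)
              exact Nat.Coprime.mul_right ((hcopx _).2 h4) h4
            · rw [ZMod.natCast_zmod_val, ← Units.val_mul, mul_inv_cancel_left]
          rw [hxu, hc] at hM ⊢
          exact key x hx hM)
      obtain ⟨u, hu⟩ := hu' x0 hx0
      have h4 := (h3 u).1
      rw [hu, hc] at h4
      exact h4 hM0
    · -- equal orders
      have hqq : q = q' := by rw [← hpi, ← hpj, hij]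
      subst hqq
      have hc : ∀ x : ℕ, ((a * a'⁻¹ : (ZMod q)ˣ) : ZMod q) * ((a' : ZMod q) * x) =
          (a : ZMod q) * x := by
        intro x
        rw [← mul_assoc, ← Units.val_mul, inv_mul_cancel_right]
      have hex : ∀ u : (ZMod q)ˣ, ∃ x : ℕ, x.Coprime (q * q) ∧ (u : ZMod q) = (a' : ZMod q) * x := by
        intro u
        refine ⟨((a'⁻¹ * u : (ZMod q)ˣ) : ZMod q).val, ?_, ?_⟩
        · have h4 := ZMod.val_coe_unit_coprime (a'⁻¹ * u)
          exact Nat.Coprime.mul_right h4 h4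
        · rw [ZMod.natCast_zmod_val, ← Units.val_mul, mul_inv_cancel_left]
      obtain ⟨u0, hu0⟩ := hu' x0 hx0
      obtain ⟨u1, hu1⟩ := hu' x1 hx1
      have h3 := lem_same d.pp d.n4 d.nq d'.n4 d'.nq (a * a'⁻¹) ⟨u0, Or.inl (by
        rw [hu0, hc]
        exact hM0)⟩ (fun u hM => by
          obtain ⟨x, hx, hxu⟩ := hex u
          rw [hxu, hc] at hM ⊢
          exact key x hx hM) u1
      rw [hu1, hc] at h3
      exact hn1' h3
    · -- the second order divides the first one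
      have hdvd : q' ∣ q := by
        rw [← hpi, ← hpj]
        exact pow_dvd_pow p hij.le
      have hne : q' ≠ q := by
        rw [← hpi, ← hpj]
        exact fun h3 => hij.ne (Nat.pow_right_injective hp.nat_prime.two_le h3)
      let c : (ZMod q')ˣ := a' * (Units.map (ZMod.castHom hdvd (ZMod q')).toMonoidHom a)⁻¹
      have hc : ∀ x : ℕ, (c : ZMod q') * ZMod.castHom hdvd (ZMod q') ((a : ZMod q) * x) =
          (a' : ZMod q') * x := by
        intro x
        rw [map_mul, map_natCast, ← mul_assoc]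
        congr 1
        have h3 : ZMod.castHom hdvd (ZMod q') (a : ZMod q) =
          ((Units.map (ZMod.castHom hdvd (ZMod q')).toMonoidHom a : (ZMod q')ˣ) : ZMod q') := rfl
        rw [h3, ← Units.val_mul]
        congr 1
        exact inv_mul_cancel_right _ _
      have h3 := lem_div hq1' hdvd hne d'.n4 d'.nq d.n4 d.nq (fun x hx => (hcopx x).2 hx) c
        (fun u hM => by
          obtain ⟨x, hx, hxu⟩ : ∃ x : ℕ, x.Coprime (q * q') ∧ (u : ZMod q) = (a : ZMod q) * x := by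
            refine ⟨((a⁻¹ * u : (ZMod q)ˣ) : ZMod q).val, ?_, ?_⟩
            · have h4 := ZMod.val_coe_unit_coprime (a⁻¹ * u)
              exact Nat.Coprime.mul_right h4 ((hcopx _).1 h4)
            · rw [ZMod.natCast_zmod_val, ← Units.val_mul, mul_inv_cancel_left]
          rw [hxu, hc] at hM ⊢
          exact (key x hx hM.symm).symm)
      obtain ⟨u, hu⟩ := hu x0 hx0
      have h4 := (h3 u).2
      rw [hu] at h4
      exact h4 hM0

end Pool.Agent.N183.U6
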